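import Pool.Agent.Helper34.MT.Base
import Pool.Agent.Helper21.MT.Trans2

/-!
The matrix form of the group theorem, with an arbitrary input at the individual factors.
-/

open Module MTPairs

namespace MTP

variable {K : Type*} [Field K] {m : Type*} [Fintype m] [DecidableEq m]
  {ι : Type*} [Fintype ι] [DecidableEq ι] {W : ι → Submodule K (m → K)}

section main
variable {J : Matrix m m K} {G : Subgroup (Matrix.GeneralLinearGroup m K)}

/-- The abstract data attached to a pair. -/
theorem grpBase [CharZero K] {σ : Type*} [Fintype σ]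
    (b : Basis σ K (∀ j, Module.End K (W j))) (hG : IsMTPair J G) (hW : IsSplit J G W)
    (hnt : ∀ j, W j ≠ ⊥) :
    GrpBase (form J W) b (GS G hW.internal) := by
  have h := hW.internal
  have hfd : Module.Finite K (∀ j, Module.End K (W j)) := Module.Finite.of_basis b
  have hres : ∀ g ∈ G, ∃ a ∈ GS G h, (g : Matrix m m K) = mat h a := by
    intro g hg
    obtain ⟨a, ha⟩ := exists_mat h (hW.stable g hg)
    exact ⟨a, ⟨g, hg, ha⟩, ha⟩
  refine
    { nd := form_nd hG.skew hG.det h hW.orth
      alt := form_alt hG.skew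
      one := ⟨1, G.one_mem, (mat_one h).symm⟩
      mul := ?_
      inv := ?_
      closed := ?_
      sim := ?_
      gen := ?_
      irr := ?_
      ne := ?_
      nt := ?_ }
  · rintro a ⟨g, hg, hga⟩ a' ⟨g', hg', hga'⟩
    refine ⟨g * g', G.mul_mem hg hg', ?_⟩
    rw [mat_mul, ← hga, ← hga']
    rfl
  · rintro a ⟨g, hg, hga⟩
    obtain ⟨a', ha', hga'⟩ := hres _ (G.inv_mem hg)
    refine ⟨a', ha', ?_, ?_⟩
    · apply mat_inj h
      rw [mat_mul, mat_one, ← hga, ← hga']
      exact Units.mul_inv g
    · apply mat_inj h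
      rw [mat_mul, mat_one, ← hga, ← hga']
      exact Units.inv_mul g
  · intro a a' haa hp
    have haa' : mat h a * mat h a' = 1 := by rw [← mat_mul, haa, mat_one]
    obtain ⟨P, hP⟩ := hG.closed
    let g : Matrix.GeneralLinearGroup m K :=
      ⟨mat h a, mat h a', haa', mul_eq_one_comm.mp haa'⟩
    refine ⟨g, ?_, rfl⟩
    rw [hP]
    intro p hpP
    let f : (∀ j, Module.End K (W j)) →ₗ[K] (m × m → K) :=
      { toFun := fun a ij => mat h a ij.1 ij.2
        map_add' := by intro x y; ext ij; simp [mat_add]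
        map_smul' := by intro c x; ext ij; simp [mat_smul] }
    obtain ⟨p', hp'⟩ := exists_pullback (A := ∀ j, Module.End K (W j)) b f p
    have h1 := hp p' (by
      rintro x ⟨g', hg', hgx⟩
      rw [hp']
      have := (hP g').mp hg' p hpP
      rw [hgx] at this
      exact this)
    rw [hp'] at h1
    exact h1
  · rintro a ⟨g, hg, hga⟩
    obtain ⟨c, hc⟩ := hG.sim g hg
    exact ⟨c, fun j v w => sim_form h hga hc j v w⟩
  · intro M hM a ha
    obtain ⟨g, hg, hga⟩ := ha
    let H : Subgroup (Matrix.GeneralLinearGroup m K) :=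
      { carrier := {g | g ∈ G ∧ ∃ a ∈ M, (g : Matrix m m K) = mat h a}
        one_mem' := ⟨G.one_mem, 1, M.one_mem, (mat_one h).symm⟩
        mul_mem' := by
          rintro g g' ⟨hg, a, ha, hga⟩ ⟨hg', a', ha', hga'⟩
          refine ⟨G.mul_mem hg hg', a * a', M.mul_mem ha ha', ?_⟩
          rw [mat_mul, ← hga, ← hga']
          rfl
        inv_mem' := by
          rintro g ⟨hg, a, ha, hga⟩
          obtain ⟨a', ha', hga'⟩ := hres _ (G.inv_mem hg)
          refine ⟨G.inv_mem hg, a', ?_, hga'⟩
          apply inv_mem_subalgebra M ha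
          apply mat_inj h
          rw [mat_mul, mat_one, ← hga, ← hga']
          exact Units.inv_mul g }
    have hHclosed : ZariskiClosed H := by
      apply closed_of_linear G H hG.closed ((Subalgebra.toSubmodule M).map (matL h))
      intro g
      constructor
      · rintro ⟨hg, a, ha, hga⟩
        exact ⟨hg, a, ha, hga.symm⟩
      · rintro ⟨hg, a, ha, hga⟩
        exact ⟨hg, a, ha, hga.symm⟩
    have hGH := hG.gen H hHclosed (by
      rintro π ⟨hπ, ht⟩
      -- `π` preserves the summands
      have hpres : ∀ j, ∀ v ∈ W j, π.mulVec v ∈ W j := by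
        intro j v hv
        obtain ⟨g, hg, hgt⟩ := ht 2 two_ne_zero
        have h1 := hW.stable g hg j v hv
        have h2 : (g : Matrix m m K).mulVec v = π.mulVec v + v := by
          rw [hgt]
          have : (2 : K) • π + (1 - π) = π + 1 := by rw [two_smul]; abel
          rw [this, Matrix.add_mulVec, Matrix.one_mulVec]
        rw [h2] at h1
        have := (W j).sub_mem h1 hv
        rwa [add_sub_cancel_right] at this
      obtain ⟨a, ha⟩ := exists_mat h hpres
      have haM : a ∈ M := by
        apply hM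
        · apply mat_inj h
          rw [mat_mul, ← ha, hπ]
        · intro t ht0
          obtain ⟨g, hg, hgt⟩ := ht t ht0
          refine ⟨g, hg, ?_⟩
          rw [mat_add, mat_smul, mat_one, ← ha, hgt]
          module
      refine ⟨hπ, fun t ht0 => ?_⟩
      obtain ⟨g, hg, hgt⟩ := ht t ht0
      refine ⟨g, ⟨hg, 1 + (t - 1) • a, M.add_mem M.one_mem (M.smul_mem haM _), ?_⟩, hgt⟩
      rw [mat_add, mat_smul, mat_one, ← ha, hgt]
      module)
    obtain ⟨-, a', ha', hga'⟩ := hGH hg
    have : a = a' := mat_inj h (by rw [← hga, hga'])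
    rw [this]; exact ha'
  · intro j W' hW'
    have := hW.irr j (W'.map (W j).subtype) (by
      rintro _ ⟨v, -, rfl⟩
      exact v.2) (by
      rintro g hg _ ⟨v, hv, rfl⟩
      obtain ⟨a, ha, hga⟩ := hres g hg
      refine ⟨a j v, hW' a ha v hv, ?_⟩
      rw [hga]
      exact (mat_mulVec h a j v).symm)
    rcases this with h1 | h1
    · left
      rw [eq_bot_iff]
      intro w hw
      have h2 : (w : m → K) ∈ W'.map (W j).subtype := ⟨w, hw, rfl⟩
      rw [h1, Submodule.mem_bot] at h2
      exact Subtype.ext h2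
    · right
      rw [eq_top_iff]
      rintro ⟨v, hv⟩ -
      rw [← h1] at hv
      obtain ⟨w, hw, hwv⟩ := hv
      have : w = ⟨v, by rw [← hwv]; exact w.2⟩ := Subtype.ext hwv
      rw [← this]; exact hw
  · rintro i j hij ⟨e, he⟩
    obtain ⟨pr, hpr⟩ := (W i).exists_isCompl
    let T : (m → K) →ₗ[K] (m → K) :=
      (W j).subtype ∘ₗ e.toLinearMap ∘ₗ (Submodule.projectionOnto (W i) pr hpr)
    have hT : ∀ v : W i, T v = e v := by
      intro v
      simp only [T, LinearMap.comp_apply]
      rw [Submodule.projectionOnto_apply_left]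
      rfl
    have := hW.ne i j hij T (by
      intro v hv
      rw [hT ⟨v, hv⟩]
      exact (e ⟨v, hv⟩).2) (by
      intro g hg v hv
      obtain ⟨a, ha, hga⟩ := hres g hg
      have h1 : (g : Matrix m m K).mulVec v = (a i ⟨v, hv⟩ : W i) := by
        rw [hga]; exact mat_mulVec h a i ⟨v, hv⟩
      rw [h1, hT, he a ha, hT ⟨v, hv⟩, hga]
      exact (mat_mulVec h a j _).symm)
    apply hnt i
    rw [eq_bot_iff]
    intro v hv
    have h1 := this v hv
    rw [hT ⟨v, hv⟩] at h1
    have h2 : e ⟨v, hv⟩ = 0 := Subtype.ext h1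
    have h3 : (⟨v, hv⟩ : W i) = 0 := by
      apply e.injective; rw [h2, map_zero]
    exact congrArg Subtype.val h3
  · intro j
    exact (Submodule.nontrivial_iff_ne_bot).mpr (hnt j)

/-- The group theorem, given that the projections of the Lie algebra are the full symplectic
Lie algebras of the summands, and that Goursat's lemma applies. -/
theorem isFull_of_proj [CharZero K] (hG : IsMTPair J G) (hW : IsSplit J G W)
    (hnt : ∀ j, W j ≠ ⊥)
    (hproj : ∀ j, ∀ z, IsSk (form J W j) z →
      ∃ x ∈ lieGen K (GrpBase.Inv (form J W) (GS G hW.internal)), x j = z)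
    (hgour : ∀ (L : Submodule K (∀ j, Module.End K (W j))),
      (∀ x ∈ L, ∀ y ∈ L, x * y - y * x ∈ L) →
      (∀ x ∈ L, ∀ j, IsSk (form J W j) (x j)) →
      (∀ j, ∀ z, IsSk (form J W j) z → ∃ x ∈ L, x j = z) →
      (∀ i j, i ≠ j → ¬ ∃ e : W i ≃ₗ[K] W j, ∀ x ∈ L, ∀ v, e (x i v) = x j (e v)) →
      ∀ x : (∀ j, Module.End K (W j)), (∀ j, IsSk (form J W j) (x j)) → x ∈ L) :
    IsFull J G W := by
  rintro g ⟨c, hc⟩ hpres
  rcases isEmpty_or_nonempty ι with hι | hι
  · have hm : IsEmpty m := by
      by_contra hm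
      rw [not_isEmpty_iff] at hm
      obtain ⟨i⟩ := hm
      have h1 : (Pi.single i (1 : K) : m → K) ∈ iSup W := by
        rw [hW.internal.submodule_iSup_eq_top]; trivial
      rw [iSup_of_empty, Submodule.mem_bot] at h1
      have h2 := congrFun h1 i
      rw [Pi.single_eq_same] at h2
      exact one_ne_zero h2
    have : g = 1 := by
      apply Units.ext
      ext i
      exact hm.elim i
    rw [this]; exact G.one_mem
  obtain ⟨n, ⟨b⟩⟩ := exists_basis (W := W)
  have D := grpBase b hG hW hnt
  obtain ⟨a, ha⟩ := exists_mat hW.internal hpres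
  have hm : Nonempty m := by
    obtain ⟨j⟩ := hι
    by_contra hm
    rw [not_nonempty_iff] at hm
    obtain ⟨v, w, hvw⟩ := D.exists_ne_form j
    apply hvw
    have : v = 0 := by
      apply Subtype.ext
      exact Subsingleton.elim _ _
    rw [this]; simp
  have hc0 : c ≠ 0 := by
    rintro rfl
    rw [zero_smul] at hc
    have h1 := congrArg Matrix.det hc
    rw [Matrix.det_mul, Matrix.det_mul, Matrix.det_transpose, Matrix.det_zero] at h1
    have hg : (g : Matrix m m K).det ≠ 0 :=
      ((Matrix.isUnit_iff_isUnit_det _).mp g.isUnit).ne_zero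
    exact (mul_ne_zero (mul_ne_zero hg hG.det) hg) h1
  have full := hgour (lieGen K (GrpBase.Inv (form J W) (GS G hW.internal)))
    (fun x hx y hy => lieGen_comm hx hy) (fun x hx j => D.lie_sk hx j)
    hproj (fun i j hij => D.lie_ne hij)
  obtain ⟨g', hg', hga⟩ := D.gsp_mem full hc0 (g := a)
    (fun j v w => sim_form hW.internal ha hc j v w)
  have : g = g' := Units.ext (by rw [ha, hga])
  rw [this]; exact hg'

end main

end MTP
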