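import Pool.Agent.Helper21.MT.Grp
import Pool.Agent.Helper21.MT.Norm
import Pool.Agent.Helper21.MT.Transv
import Pool.Agent.Helper21.MT.Zar


/-!
Closed groups generated by cocharacters of weights zero and one, inside a product of groups of
symplectic similitudes.  This is the part of helper21's development which does not depend on the
arithmetic input at the individual factors.
-/

open Module

namespace MTP

variable {K : Type*} [Field K] {ι : Type*} [Fintype ι] [DecidableEq ι] {W : ι → Type*}
  [∀ j, AddCommGroup (W j)] [∀ j, Module K (W j)] [∀ j, FiniteDimensional K (W j)]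
  {σ : Type*} [Fintype σ]

/-- The hypotheses of the group theorem, in abstract form. -/
structure GrpBase (ω : ∀ j, LinearMap.BilinForm K (W j))
    (b : Basis σ K (∀ j, Module.End K (W j))) (G : Set (∀ j, Module.End K (W j))) : Prop where
  nd : ∀ j, (ω j).Nondegenerate
  alt : ∀ j, (ω j).IsAlt
  one : 1 ∈ G
  mul : ∀ g ∈ G, ∀ h ∈ G, g * h ∈ G
  inv : ∀ g ∈ G, ∃ h ∈ G, g * h = 1 ∧ h * g = 1
  closed : ∀ g h, g * h = 1 →
    (∀ p : MvPolynomial σ K, (∀ x ∈ G, ev b x p = 0) → ev b g p = 0) → g ∈ G
  sim : ∀ g ∈ G, ∃ c : K, ∀ j v w, ω j (g j v) (g j w) = c * ω j v w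
  gen : ∀ M : Subalgebra K (∀ j, Module.End K (W j)),
    (∀ π, π * π = π → (∀ t : K, t ≠ 0 → 1 + (t - 1) • π ∈ G) → π ∈ M) → ∀ g ∈ G, g ∈ M
  irr : ∀ j (W' : Submodule K (W j)), (∀ g ∈ G, ∀ w ∈ W', g j w ∈ W') → W' = ⊥ ∨ W' = ⊤
  ne : ∀ i j, i ≠ j → ¬ ∃ e : W i ≃ₗ[K] W j, ∀ g ∈ G, ∀ v, e (g i v) = g j (e v)
  nt : ∀ j, Nontrivial (W j)

namespace GrpBase
variable {ω : ∀ j, LinearMap.BilinForm K (W j)} {b : Basis σ K (∀ j, Module.End K (W j))}
  {G : Set (∀ j, Module.End K (W j))} (D : GrpBase ω b G)

/-- The cocharacters with weights zero and one whose involution is infinitesimally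
symplectic. -/
def Lag (ω : ∀ j, LinearMap.BilinForm K (W j)) (G : Set (∀ j, Module.End K (W j))) :
    Set (∀ j, Module.End K (W j)) :=
  {π | π * π = π ∧ (∀ t : K, t ≠ 0 → 1 + (t - 1) • π ∈ G) ∧
    ∀ j, IsSk (ω j) ((2 : K) • π j - 1)}

/-- The set of involutions. -/
def Inv (ω : ∀ j, LinearMap.BilinForm K (W j)) (G : Set (∀ j, Module.End K (W j))) :
    Set (∀ j, Module.End K (W j)) :=
  {s | ∃ π ∈ Lag ω G, s = (2 : K) • π - 1}

include D

lemma exists_ne_form (j : ι) : ∃ v w, ω j v w ≠ 0 := by
  have := D.nt j
  obtain ⟨v, hv⟩ := exists_ne (0 : W j)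
  by_contra hcon
  push Not at hcon
  exact hv ((D.nd j).1 v (hcon v))

/-- Trichotomy for cocharacters. -/
lemma trich [CharZero K] {π : ∀ j, Module.End K (W j)} (hπ : π * π = π)
    (ht : ∀ t : K, t ≠ 0 → 1 + (t - 1) • π ∈ G) : π ∈ Lag ω G ∨ π = 0 ∨ π = 1 := by
  obtain ⟨c, hc⟩ := D.sim _ (ht 2 two_ne_zero)
  have hc' : ∀ j v w, ω j ((1 + π j) v) ((1 + π j) w) = c * ω j v w := by
    intro j v w
    have := hc j v w
    have e : (1 + ((2 : K) - 1) • π) j = 1 + π j := by
      rw [Pi.add_apply, Pi.smul_apply, Pi.one_apply]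
      norm_num
    rwa [e] at this
  have hπj : ∀ j, π j * π j = π j := fun j => congrFun hπ j
  have h4 := fun j v w => four (hπj j) (hc' j) v w
  have split : ∀ j v w, ω j v w = ω j (π j v) (π j w) + ω j (π j v) (w - π j w)
      + ω j (v - π j v) (π j w) + ω j (v - π j v) (w - π j w) := by
    intro j v w
    simp only [map_sub, LinearMap.sub_apply]
    ring
  by_cases c2 : c = 2
  · left
    refine ⟨hπ, ht, fun j v w => ?_⟩
    obtain ⟨a1, -, -, a4⟩ := h4 j v w
    have b1 : ω j (π j v) (π j w) = 0 := by
      rw [c2] at a1; exact (mul_eq_zero.mp a1).resolve_left (by norm_num)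
    have b4 : ω j (v - π j v) (w - π j w) = 0 := by
      rw [c2] at a4; exact (mul_eq_zero.mp a4).resolve_left (by norm_num)
    simp only [map_sub, LinearMap.sub_apply, LinearMap.smul_apply, map_smul,
      Module.End.one_apply, smul_eq_mul] at b1 b4 ⊢
    linear_combination 2 * b1 - 2 * b4
  · right
    have b2 : ∀ j v w, ω j (π j v) (w - π j w) = 0 := fun j v w =>
      (mul_eq_zero.mp (h4 j v w).2.1).resolve_left (sub_ne_zero.mpr c2)
    have b3 : ∀ j v w, ω j (v - π j v) (π j w) = 0 := fun j v w =>
      (mul_eq_zero.mp (h4 j v w).2.2.1).resolve_left (sub_ne_zero.mpr c2)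
    by_cases c4 : c = 4
    · right
      funext j
      ext v
      have b4 : ∀ w, ω j (v - π j v) (w - π j w) = 0 := by
        intro w
        have := (h4 j v w).2.2.2
        rw [c4] at this
        exact (mul_eq_zero.mp this).resolve_left (by norm_num)
      have : v - π j v = 0 := by
        apply (D.nd j).1
        intro w
        have e : w = π j w + (w - π j w) := by abel
        rw [e, map_add, b3, b4, add_zero]
      rw [sub_eq_zero] at this
      exact this.symm
    · left
      funext j
      ext v
      have b1 : ∀ v w, ω j (π j v) (π j w) = 0 := fun v w =>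
        (mul_eq_zero.mp (h4 j v w).1).resolve_left (sub_ne_zero.mpr c4)
      have : π j v = 0 := by
        apply (D.nd j).1
        intro w
        have e : w = π j w + (w - π j w) := by abel
        rw [e, map_add, b1, b2, add_zero]
      exact this

/-- A subalgebra containing the Lagrangian cocharacters contains `G`. -/
lemma gen' [CharZero K] (M : Subalgebra K (∀ j, Module.End K (W j)))
    (hM : ∀ π ∈ Lag ω G, π ∈ M) : ∀ g ∈ G, g ∈ M := by
  apply D.gen
  intro π hπ ht
  rcases D.trich hπ ht with h | h | h
  · exact hM π h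
  · rw [h]; exact M.zero_mem
  · rw [h]; exact M.one_mem

lemma mult_ne_zero {g : ∀ j, Module.End K (W j)} (j : ι) {h : ∀ j, Module.End K (W j)}
    (hgh : g * h = 1) {c : K} (hc : ∀ j v w, ω j (g j v) (g j w) = c * ω j v w) : c ≠ 0 := by
  rintro rfl
  obtain ⟨v, w, hvw⟩ := D.exists_ne_form j
  have h1 : ∀ x, g j (h j x) = x := fun x => LinearMap.congr_fun (congrFun hgh j) x
  have := hc j (h j v) (h j w)
  rw [h1, h1, zero_mul] at this
  exact hvw this

/-- `G` permutes the Lagrangian cocharacters. -/
lemma lag_conj {g h : ∀ j, Module.End K (W j)} (hg : g ∈ G) (hh : h ∈ G) (hgh : g * h = 1)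
    (hhg : h * g = 1) {π : ∀ j, Module.End K (W j)} (hπ : π ∈ Lag ω G) :
    g * π * h ∈ Lag ω G := by
  obtain ⟨h1, h2, h3⟩ := hπ
  refine ⟨?_, ?_, ?_⟩
  · calc g * π * h * (g * π * h) = g * π * (h * g) * π * h := by noncomm_ring
      _ = g * (π * π) * h := by rw [hhg]; noncomm_ring
      _ = _ := by rw [h1]
  · intro t ht
    have : 1 + (t - 1) • (g * π * h) = g * (1 + (t - 1) • π) * h := by
      rw [mul_add, add_mul, mul_one, hgh, mul_smul_comm, smul_mul_assoc]
    rw [this]
    exact D.mul _ (D.mul _ hg _ (h2 t ht)) _ hh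
  · intro j
    obtain ⟨c, hc⟩ := D.sim g hg
    have hc0 := D.mult_ne_zero j hgh hc
    have := (h3 j).conj (g := g j) (g' := h j) (hc j) (congrFun hgh j) hc0
    have e : g j * ((2 : K) • π j - 1) * h j = (2 : K) • (g * π * h) j - 1 := by
      have e1 : g j * h j = 1 := congrFun hgh j
      rw [mul_sub, sub_mul, mul_one, e1, mul_smul_comm, smul_mul_assoc]
      rfl
    rwa [e] at this

/-- `G` normalises the Lie algebra. -/
lemma lie_conj {g h : ∀ j, Module.End K (W j)} (hg : g ∈ G) (hh : h ∈ G) (hgh : g * h = 1)
    (hhg : h * g = 1) {x : ∀ j, Module.End K (W j)} (hx : x ∈ lieGen K (Inv ω G)) :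
    g * x * h ∈ lieGen K (Inv ω G) := by
  let M : Submodule K (∀ j, Module.End K (W j)) :=
    { carrier := {x | g * x * h ∈ lieGen K (Inv ω G)}
      add_mem' := by
        intro x y hx hy
        rw [Set.mem_ofPred_eq] at *
        rw [mul_add, add_mul]; exact Submodule.add_mem _ hx hy
      zero_mem' := by simp
      smul_mem' := by
        intro c x hx
        rw [Set.mem_ofPred_eq] at *
        rw [mul_smul_comm, smul_mul_assoc]; exact Submodule.smul_mem _ _ hx }
  have : lieGen K (Inv ω G) ≤ M := by
    apply lieGen_le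
    · intro x hx y hy
      have h1 := lieGen_comm (show g * x * h ∈ lieGen K (Inv ω G) from hx)
        (show g * y * h ∈ lieGen K (Inv ω G) from hy)
      have e : g * x * h * (g * y * h) - g * y * h * (g * x * h) = g * (x * y - y * x) * h := by
        calc g * x * h * (g * y * h) - g * y * h * (g * x * h)
            = g * x * (h * g) * y * h - g * y * (h * g) * x * h := by noncomm_ring
          _ = _ := by rw [hhg]; noncomm_ring
      rw [e] at h1
      exact h1
    · rintro s ⟨π, hπ, rfl⟩
      apply subset_lieGen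
      refine ⟨g * π * h, D.lag_conj hg hh hgh hhg hπ, ?_⟩
      rw [mul_sub, sub_mul, mul_one, hgh, mul_smul_comm, smul_mul_assoc]
  exact this hx

lemma lie_sk {x : ∀ j, Module.End K (W j)} (hx : x ∈ lieGen K (Inv ω G)) (j : ι) :
    IsSk (ω j) (x j) := by
  let M : Submodule K (∀ j, Module.End K (W j)) :=
    { carrier := {x | IsSk (ω j) (x j)}
      add_mem' := by
        intro x y hx hy v w
        have h1 := hx v w
        have h2 := hy v w
        rw [Pi.add_apply, LinearMap.add_apply, LinearMap.add_apply, map_add, map_add,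
          LinearMap.add_apply, h1, h2]
        ring
      zero_mem' := by intro v w; simp
      smul_mem' := by
        intro c x hx v w
        have h1 := hx v w
        rw [Pi.smul_apply, LinearMap.smul_apply, LinearMap.smul_apply, map_smul, map_smul,
          LinearMap.smul_apply, h1, smul_eq_mul, smul_eq_mul]
        ring }
  have : lieGen K (Inv ω G) ≤ M := by
    apply lieGen_le
    · intro x hx y hy v w
      have h1 : IsSk (ω j) (x j) := hx
      have h2 : IsSk (ω j) (y j) := hy
      have e : (x * y - y * x) j = x j * y j - y j * x j := rfl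
      rw [e]
      simp only [LinearMap.sub_apply, Module.End.mul_apply, map_sub]
      rw [h1, h2, h2, h1]
      ring
    · rintro s ⟨π, hπ, rfl⟩
      exact hπ.2.2 j
  exact this hx

/-- The Lie algebra acts on each factor through an irreducible involution generated Lie
algebra. -/
lemma ctx [CharZero K] (j : ι) :
    Ctx (ω j) (lieGen K ((Pi.evalAlgHom K (fun j => Module.End K (W j)) j) '' (Inv ω G)))
      ((Pi.evalAlgHom K (fun j => Module.End K (W j)) j) '' (Inv ω G)) where
  irr := by
    refine ⟨fun x hx y hy => lieGen_comm hx hy, ?_, ?_⟩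
    · intro x hx
      rw [← lieGen_map] at hx
      obtain ⟨x', hx', rfl⟩ := hx
      exact D.lie_sk hx' j
    · intro W' hW'
      apply D.irr j
      let M : Subalgebra K (∀ j, Module.End K (W j)) :=
        { carrier := {x | ∀ w ∈ W', x j w ∈ W'}
          mul_mem' := by
            intro x y hx hy w hw
            exact hx _ (hy w hw)
          one_mem' := by intro w hw; exact hw
          add_mem' := by
            intro x y hx hy w hw
            exact W'.add_mem (hx w hw) (hy w hw)
          zero_mem' := by intro w hw; exact W'.zero_mem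
          algebraMap_mem' := by
            intro c w hw
            exact W'.smul_mem c hw }
      have := D.gen' M (by
        intro π hπ w hw
        have hs : (Pi.evalAlgHom K (fun j => Module.End K (W j)) j) ((2 : K) • π - 1) ∈
            lieGen K ((Pi.evalAlgHom K (fun j => Module.End K (W j)) j) '' (Inv ω G)) :=
          subset_lieGen _ ⟨_, ⟨π, hπ, rfl⟩, rfl⟩
        have h1 := hW' _ hs w hw
        have h2 : ((Pi.evalAlgHom K (fun j => Module.End K (W j)) j) ((2 : K) • π - 1)) w =
          (2 : K) • π j w - w := rfl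
        rw [h2] at h1
        have h3 := W'.smul_mem (2 : K)⁻¹ (W'.add_mem h1 hw)
        rwa [sub_add_cancel, smul_smul, inv_mul_cancel₀ two_ne_zero, one_smul] at h3)
      intro g hg
      exact this g hg
  nd := D.nd j
  inv := by
    rintro _ ⟨s, hs, rfl⟩
    refine ⟨subset_lieGen _ ⟨s, hs, rfl⟩, ?_⟩
    obtain ⟨π, hπ, rfl⟩ := hs
    have h1 : π j * π j = π j := congrFun hπ.1 j
    have h2 : (Pi.evalAlgHom K (fun j => Module.End K (W j)) j) ((2 : K) • π - 1) =
      (2 : K) • π j - 1 := rfl
    rw [h2]
    simp only [sub_mul, mul_sub, smul_mul_assoc, mul_smul_comm, h1, mul_one, one_mul]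
    module
  gen := fun M h1 h2 => lieGen_le h1 h2

/-- The factors are pairwise non isomorphic as modules over the Lie algebra. -/
lemma lie_ne [CharZero K] {i j : ι} (hij : i ≠ j) :
    ¬ ∃ e : W i ≃ₗ[K] W j, ∀ x ∈ lieGen K (Inv ω G), ∀ v, e (x i v) = x j (e v) := by
  rintro ⟨e, he⟩
  apply D.ne i j hij
  refine ⟨e, ?_⟩
  let M : Subalgebra K (∀ j, Module.End K (W j)) :=
    { carrier := {x | ∀ v, e (x i v) = x j (e v)}
      mul_mem' := by
        intro x y hx hy v
        calc e ((x * y) i v) = e (x i (y i v)) := rfl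
          _ = x j (y j (e v)) := by rw [hx, hy]
          _ = _ := rfl
      one_mem' := by intro v; rfl
      add_mem' := by
        intro x y hx hy v
        calc e ((x + y) i v) = e (x i v + y i v) := rfl
          _ = x j (e v) + y j (e v) := by rw [map_add, hx, hy]
          _ = _ := rfl
      zero_mem' := by
        intro v
        calc e ((0 : ∀ j, Module.End K (W j)) i v) = e 0 := rfl
          _ = 0 := map_zero _
          _ = _ := rfl
      algebraMap_mem' := by
        intro c v
        calc e (algebraMap K (∀ j, Module.End K (W j)) c i v) = e (c • v) := rfl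
          _ = c • e v := map_smul _ _ _
          _ = _ := rfl }
  have := D.gen' M (by
    intro π hπ v
    have h1 := he _ (subset_lieGen _ ⟨π, hπ, rfl⟩) v
    have h2 : ((2 : K) • π - 1 : ∀ j, Module.End K (W j)) i v = (2 : K) • π i v - v := rfl
    have h3 : ((2 : K) • π - 1 : ∀ j, Module.End K (W j)) j (e v) =
      (2 : K) • π j (e v) - e v := rfl
    rw [h2, h3, map_sub, map_smul] at h1
    have h4 : (2 : K) • e (π i v) = (2 : K) • π j (e v) := by
      have := congrArg (fun z => z + e v) h1
      simpa using this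
    exact smul_right_injective (W j) (two_ne_zero (α := K)) h4)
  intro g hg v
  exact this g hg v

/-- Up to scalars the Lie algebra is contained in the Lie algebra of the group. -/
lemma lie_mod [CharZero K] {x : ∀ j, Module.End K (W j)} (hx : x ∈ lieGen K (Inv ω G)) :
    ∃ c : K, x - c • 1 ∈ lieOf b G := by
  let M : Submodule K (∀ j, Module.End K (W j)) :=
    { carrier := {x | ∃ c : K, x - c • (1 : ∀ j, Module.End K (W j)) ∈ lieOf b G}
      add_mem' := by
        rintro x y ⟨c, hc⟩ ⟨c', hc'⟩
        refine ⟨c + c', ?_⟩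
        have := lieOf_add hc hc'
        have e : x + y - (c + c') • (1 : ∀ j, Module.End K (W j)) =
          x - c • 1 + (y - c' • 1) := by rw [add_smul]; abel
        rw [e]; exact this
      zero_mem' := ⟨0, by rw [zero_smul, sub_zero]; exact lieOf_zero⟩
      smul_mem' := by
        rintro a x ⟨c, hc⟩
        refine ⟨a * c, ?_⟩
        have := lieOf_smul a hc
        rwa [smul_sub, smul_smul] at this }
  have hle : lieGen K (Inv ω G) ≤ M := by
    apply lieGen_le
    · rintro x ⟨c, hc⟩ y ⟨c', hc'⟩
      refine ⟨0, ?_⟩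
      have := lieOf_comm hc hc'
      have e : x * y - y * x - (0 : K) • (1 : ∀ j, Module.End K (W j)) =
          (x - c • 1) * (y - c' • 1) - (y - c' • 1) * (x - c • 1) := by
        rw [zero_smul, sub_zero]
        simp only [sub_mul, mul_sub, smul_mul_assoc, mul_smul_comm, mul_one, one_mul]
        module
      rw [e]; exact this
    · rintro s ⟨π, hπ, rfl⟩
      refine ⟨-1, ?_⟩
      have h1 : π ∈ lieOf b G := lieOf_cochar D.mul hπ.2.1
      have h2 := lieOf_smul (2 : K) h1
      have e : (2 : K) • π - 1 - (-1 : K) • (1 : ∀ j, Module.End K (W j)) = (2 : K) • π := by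
        rw [neg_one_smul]; abel
      rw [e]; exact h2
  exact hle hx

/-- Commutators of elements of the Lie algebra belong to the Lie algebra of the group. -/
lemma lie_comm_mem [CharZero K] {x y : ∀ j, Module.End K (W j)}
    (hx : x ∈ lieGen K (Inv ω G)) (hy : y ∈ lieGen K (Inv ω G)) :
    x * y - y * x ∈ lieOf b G := by
  obtain ⟨c, hc⟩ := D.lie_mod hx
  obtain ⟨c', hc'⟩ := D.lie_mod hy
  have := lieOf_comm hc hc'
  have e : x * y - y * x =
      (x - c • 1) * (y - c' • 1) - (y - c' • 1) * (x - c • 1) := by
    simp only [sub_mul, mul_sub, smul_mul_assoc, mul_smul_comm, mul_one, one_mul]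
    module
  rw [e]; exact this

section full
variable (full : ∀ x : ∀ j, Module.End K (W j), (∀ j, IsSk (ω j) (x j)) →
  x ∈ lieGen K (Inv ω G))
include full

/-- The transvection directions belong to the Lie algebra of the group. -/
lemma single_TT_mem [CharZero K] (j : ι) (a : W j) :
    (Pi.single j (TT (ω j) a) : ∀ j, Module.End K (W j)) ∈ lieOf b G := by
  have halt := D.alt j
  by_cases ha : a = 0
  · have : TT (ω j) a = 0 := by ext z; rw [ha, TT_apply]; simp
    rw [this, Pi.single_zero]
    exact lieOf_zero
  obtain ⟨a', ha'⟩ : ∃ a', ω j a a' ≠ 0 := by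
    by_contra hcon
    push Not at hcon
    exact ha ((D.nd j).1 a hcon)
  have hskT : IsSk (ω j) (TT (ω j) a) := by
    intro v w
    have h1 : ω j v a = - ω j a v := (halt.neg_eq a v).symm
    rw [TT_apply, TT_apply, map_smul, LinearMap.smul_apply, map_smul, h1, smul_eq_mul,
      smul_eq_mul]
    ring
  have hskB : IsSk (ω j) (BB (ω j) a a') := by
    intro v w
    have h1 : ω j v a = - ω j a v := (halt.neg_eq a v).symm
    have h2 : ω j v a' = - ω j a' v := (halt.neg_eq a' v).symm
    simp only [BB_apply, map_add, map_smul, LinearMap.add_apply, LinearMap.smul_apply,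
      smul_eq_mul, h1, h2]
    ring
  have hs : ∀ z : Module.End K (W j), IsSk (ω j) z →
      (Pi.single j z : ∀ j, Module.End K (W j)) ∈ lieGen K (Inv ω G) := by
    intro z hz
    apply full
    intro i
    by_cases h : i = j
    · subst h; rw [Pi.single_eq_same]; exact hz
    · rw [Pi.single_eq_of_ne h]; intro v w; simp
  have hmem := D.lie_comm_mem (hs _ hskB) (hs _ hskT)
  rw [← Pi.single_mul, ← Pi.single_mul, ← Pi.single_sub] at hmem
  have e : BB (ω j) a a' * TT (ω j) a - TT (ω j) a * BB (ω j) a a' =
      (-(2 * ω j a a')) • TT (ω j) a := by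
    ext z
    have h1 : ω j a' a = - ω j a a' := (halt.neg_eq a a').symm
    have h2 : ω j a a = 0 := halt.self_eq_zero a
    simp only [LinearMap.sub_apply, Module.End.mul_apply, TT_apply, BB_apply, map_smul, map_add,
      LinearMap.smul_apply, h1, h2]
    module
  rw [e] at hmem
  have h3 := lieOf_smul (-(2 * ω j a a'))⁻¹ hmem
  rw [← Pi.single_smul, smul_smul, inv_mul_cancel₀, one_smul] at h3
  · exact h3
  · exact neg_ne_zero.mpr (mul_ne_zero two_ne_zero ha')

/-- Transvections belong to the group. -/
lemma transv_mem [CharZero K] (j : ι) (c : K) (a : W j) :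
    (Pi.mulSingle j (1 + c • TT (ω j) a) : ∀ j, Module.End K (W j)) ∈ G := by
  have e : (Pi.mulSingle j (1 + c • TT (ω j) a) : ∀ j, Module.End K (W j)) =
      (1 : ∀ j, Module.End K (W j)) +
        c • (Pi.single j (TT (ω j) a) : ∀ j, Module.End K (W j)) := by
    funext i
    by_cases h : i = j
    · subst h; simp
    · simp [h]
  have hsq : (Pi.single j (TT (ω j) a) : ∀ j, Module.End K (W j)) *
      Pi.single j (TT (ω j) a) = 0 := by
    rw [← Pi.single_mul, TT_sq (D.alt j), Pi.single_zero]
  have hmem := D.single_TT_mem full j a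
  rw [e]
  apply D.closed _ ((1 : ∀ j, Module.End K (W j)) +
    (-c) • (Pi.single j (TT (ω j) a) : ∀ j, Module.End K (W j)))
  · simp only [mul_add, add_mul, mul_one, one_mul, smul_mul_assoc, mul_smul_comm, hsq]
    simp
  · intro p hp
    exact lieOf_exp D.one hmem hsq c hp

/-- The product of the symplectic groups is contained in the group. -/
lemma sp_mem [CharZero K] {g : ∀ j, Module.End K (W j)}
    (hg : ∀ j v w, ω j (g j v) (g j w) = ω j v w) : g ∈ G := by
  have h1 : ∀ j (x : Module.End K (W j)), (∀ v w, ω j (x v) (x w) = ω j v w) →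
      (Pi.mulSingle j x : ∀ j, Module.End K (W j)) ∈ G := by
    intro j x hx
    let M : Submonoid (Module.End K (W j)) :=
      { carrier := {x | (Pi.mulSingle j x : ∀ j, Module.End K (W j)) ∈ G}
        one_mem' := by
          rw [Set.mem_ofPred_eq, Pi.mulSingle_one]; exact D.one
        mul_mem' := by
          intro x y hx hy
          rw [Set.mem_ofPred_eq, Pi.mulSingle_mul] at *
          exact D.mul _ hx _ hy }
    exact sp_mem_of_transvections (D.nd j) (D.alt j) M (fun c u => D.transv_mem full j c u) hx
  have h2 : ∀ s : Finset ι, ∀ g : ∀ j, Module.End K (W j),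
      (∀ j v w, ω j (g j v) (g j w) = ω j v w) → (∀ j ∉ s, g j = 1) → g ∈ G := by
    intro s
    induction s using Finset.induction_on with
    | empty =>
      intro g _ hs
      have : g = 1 := funext fun j => hs j (Finset.notMem_empty j)
      rw [this]; exact D.one
    | insert a s ha ih =>
      intro g hg hs
      have e : g = Function.update g a 1 * Pi.mulSingle a (g a) := by
        funext i
        by_cases h : i = a
        · subst h; simp
        · simp [h]
      rw [e]
      apply D.mul
      · apply ih
        · intro j v w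
          by_cases h : j = a
          · subst h; simp
          · rw [Function.update_of_ne h]; exact hg j v w
        · intro j hj
          by_cases h : j = a
          · subst h; simp
          · rw [Function.update_of_ne h]
            apply hs
            simp [h, hj]
      · exact h1 a _ (hg a)
  exact h2 Finset.univ g hg (fun j hj => absurd (Finset.mem_univ j) hj)

/-- The group is the full group of similitudes. -/
lemma gsp_mem [CharZero K] [Nonempty ι] {g : ∀ j, Module.End K (W j)} {c : K} (hc : c ≠ 0)
    (hg : ∀ j v w, ω j (g j v) (g j w) = c * ω j v w) : g ∈ G := by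
  -- there is a Lagrangian cocharacter
  obtain ⟨π, hπ⟩ : (Lag ω G).Nonempty := by
    by_contra hcon
    rw [Set.not_nonempty_iff_eq_empty] at hcon
    have hL : lieGen K (Inv ω G) ≤ ⊥ := by
      apply lieGen_le
      · intro x hx y hy
        rw [Submodule.mem_bot] at *
        rw [hx, hy]; simp
      · rintro s ⟨π, hπ, rfl⟩
        rw [hcon] at hπ
        exact absurd hπ (Set.notMem_empty _)
    obtain ⟨j⟩ := (inferInstance : Nonempty ι)
    obtain ⟨v, w, hvw⟩ := D.exists_ne_form j
    have hs : (Pi.single j (TT (ω j) v) : ∀ j, Module.End K (W j)) ∈ lieGen K (Inv ω G) := by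
      apply full
      intro i
      by_cases h : i = j
      · subst h
        rw [Pi.single_eq_same]
        intro x y
        have h1 : ω i x v = - ω i v x := ((D.alt i).neg_eq v x).symm
        rw [TT_apply, TT_apply, map_smul, LinearMap.smul_apply, map_smul, h1, smul_eq_mul,
          smul_eq_mul]
        ring
      · rw [Pi.single_eq_of_ne h]; intro v w; simp
    have h0 := (Submodule.mem_bot K).mp (hL hs)
    have h1 : TT (ω j) v = 0 := by
      have := congrFun h0 j
      rwa [Pi.single_eq_same] at this
    have h2 := LinearMap.congr_fun h1 w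
    rw [TT_apply, LinearMap.zero_apply, smul_eq_zero] at h2
    rcases h2 with h2 | h2
    · exact hvw h2
    · rw [h2] at hvw; simp at hvw
  obtain ⟨hππ, hcoch, hsk⟩ := hπ
  -- the multiplier of the cocharacter
  have hmult : ∀ (t : K) j v w, ω j ((1 + (t - 1) • π) j v) ((1 + (t - 1) • π) j w) =
      t * ω j v w := by
    intro t j v w
    have h1 := hsk j v w
    have h2 := hsk j (π j v) w
    have hp : ∀ v, π j (π j v) = π j v := fun v => LinearMap.congr_fun (congrFun hππ j) v
    have e : ∀ v, (1 + (t - 1) • π) j v = v + (t - 1) • π j v := fun v => rfl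
    rw [e, e]
    simp only [LinearMap.sub_apply, LinearMap.smul_apply, Module.End.one_apply, map_sub,
      map_smul, map_add, LinearMap.add_apply, smul_eq_mul, hp] at h1 h2 ⊢
    have h3 : ω j (π j v) (π j w) = 0 := by linear_combination h2 / 2
    linear_combination (t - 1) * h1 / 2 + (t - 1) * (t - 1) * h3
  have hinv : (1 + (c - 1) • π) * (1 + (c⁻¹ - 1) • π) = 1 := by
    simp only [mul_add, add_mul, mul_one, one_mul, smul_mul_assoc, mul_smul_comm, hππ]
    have : (c - 1) + (c⁻¹ - 1) + (c - 1) * (c⁻¹ - 1) = 0 := by field_simp; ring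
    trans (1 + ((c - 1) + (c⁻¹ - 1) + (c - 1) * (c⁻¹ - 1)) • π : ∀ j, Module.End K (W j))
    · module
    · rw [this, zero_smul, add_zero]
  have e : g = (1 + (c - 1) • π) * ((1 + (c⁻¹ - 1) • π) * g) := by
    rw [← mul_assoc, hinv, one_mul]
  rw [e]
  apply D.mul _ (hcoch c hc)
  apply D.sp_mem full
  intro j v w
  have e1 : ∀ v, ((1 + (c⁻¹ - 1) • π) * g) j v = (1 + (c⁻¹ - 1) • π) j (g j v) := fun v => rfl
  rw [e1, e1, hmult, hg, ← mul_assoc, inv_mul_cancel₀ hc, one_mul]

end full

end GrpBase

end MTP
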