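import Mathlib

/-!
Laurent polynomials with values in a vector space, all of whose values lie in a subspace.
-/

open Module

namespace MTP

variable {K : Type*} [Field K] {E : Type*} [AddCommGroup E] [Module K E]

lemma laurent_coeff [CharZero K] (M : Submodule K E) (N : Finset ℤ) :
    ∀ f : ℤ → E, (∀ t : K, t ≠ 0 → ∑ n ∈ N, t ^ n • f n ∈ M) → ∀ n ∈ N, f n ∈ M := by
  classical
  induction N using Finset.induction_on with
  | empty => intro f _ n hn; exact absurd hn (Finset.notMem_empty n)
  | insert a N ha ih =>
    intro f hf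
    have key : ∀ n ∈ N, f n ∈ M := by
      intro n hn
      have h0 := ih (fun n => ((2 : K) ^ n - 2 ^ a) • f n) (by
        intro t ht
        have h1 := hf (2 * t) (mul_ne_zero two_ne_zero ht)
        have h2 := M.smul_mem ((2 : K) ^ a) (hf t ht)
        have h3 := M.sub_mem h1 h2
        rw [Finset.sum_insert ha, Finset.sum_insert ha, smul_add, add_sub_add_comm, mul_zpow,
          smul_smul, sub_self, zero_add, Finset.smul_sum, ← Finset.sum_sub_distrib] at h3
        refine (congrArg (· ∈ M) (Finset.sum_congr rfl fun n _ => ?_)).mp h3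
        rw [mul_zpow, smul_smul, smul_smul, ← sub_smul]
        congr 1
        ring) n hn
      have hne : (2 : K) ^ n - 2 ^ a ≠ 0 := by
        intro h
        have hna : n ≠ a := fun h => ha (h ▸ hn)
        apply hna
        have h1 : ((2 : ℚ) ^ n : ℚ) = 2 ^ a := by
          have h2 : (2 : K) ^ n = 2 ^ a := sub_eq_zero.mp h
          have h3 : (((2 : ℚ) ^ n : ℚ) : K) = (((2 : ℚ) ^ a : ℚ) : K) := by
            push_cast; exact h2
          exact_mod_cast h3
        exact zpow_right_injective₀ (by norm_num) (by norm_num) h1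
      have h1 := M.smul_mem ((2 : K) ^ n - 2 ^ a)⁻¹ h0
      rwa [smul_smul, inv_mul_cancel₀ hne, one_smul] at h1
    intro n hn
    rcases Finset.mem_insert.mp hn with rfl | hn
    · have h1 := hf 1 one_ne_zero
      rw [Finset.sum_insert ha] at h1
      simp only [one_zpow, one_smul] at h1
      have h2 := M.sum_mem key
      have h3 := M.sub_mem h1 h2
      rwa [add_sub_cancel_right] at h3
    · exact key n hn

/-- Replacing the powers of `t` by arbitrary scalars. -/
lemma laurent_sum [CharZero K] {ι : Type*} (M : Submodule K E) (s : Finset ι) (e : ι → ℤ)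
    (f : ι → E) (h : ∀ t : K, t ≠ 0 → ∑ i ∈ s, t ^ e i • f i ∈ M) (q : ℤ → K) :
    ∑ i ∈ s, q (e i) • f i ∈ M := by
  classical
  have hmaps : ∀ i ∈ s, e i ∈ s.image e := fun i hi => Finset.mem_image_of_mem e hi
  have key := laurent_coeff M (s.image e) (fun n => ∑ i ∈ s with e i = n, f i) (by
    intro t ht
    have h1 := h t ht
    rw [← Finset.sum_fiberwise_of_maps_to hmaps] at h1
    refine (congrArg (· ∈ M) (Finset.sum_congr rfl fun n _ => ?_)).mp h1
    rw [Finset.smul_sum]
    refine Finset.sum_congr rfl fun i hi => ?_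
    rw [(Finset.mem_filter.mp hi).2])
  rw [← Finset.sum_fiberwise_of_maps_to hmaps]
  apply M.sum_mem
  intro n hn
  have h1 := M.smul_mem (q n) (key n hn)
  rw [Finset.smul_sum] at h1
  refine (congrArg (· ∈ M) (Finset.sum_congr rfl fun i hi => ?_)).mp h1
  rw [(Finset.mem_filter.mp hi).2]

/-- A version with a given value. -/
lemma laurent_eq [CharZero K] {ι : Type*} (s : Finset ι) (e : ι → ℤ) (f : ι → E) (c : ℤ) (g : E)
    (h : ∀ t : K, t ≠ 0 → ∑ i ∈ s, t ^ e i • f i = t ^ c • g) (q : ℤ → K) :
    ∑ i ∈ s, q (e i) • f i = q c • g := by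
  have key := laurent_sum (⊥ : Submodule K E) (Finset.insertNone s) (fun o => o.elim c e)
    (fun o => o.elim (-g) f) (by
      intro t ht
      rw [Finset.sum_insertNone, Submodule.mem_bot]
      simp only [Option.elim_none, Option.elim_some]
      rw [h t ht, smul_neg, neg_add_cancel]) q
  rw [Finset.sum_insertNone, Submodule.mem_bot] at key
  simp only [Option.elim_none, Option.elim_some] at key
  rw [smul_neg, neg_add_eq_zero] at key
  exact key.symm

end MTP
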