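import Pool.Agent.Helper34.MT.Base
import Pool.Agent.Helper34.MT.Laurent
import Pool.Agent.Helper54.MT.Arith

/-!
The element of the Lie algebra attached to a cocharacter, and the number of its odd eigenvalues.
-/

open Module

namespace MTP

section one
variable {K : Type*} [Field K] {V : Type*} [AddCommGroup V] [Module K V]
variable {ω : LinearMap.BilinForm K V}

/-- The operator with eigenvalue `(2 n - c) / m` on the image of `p n`. -/
noncomputable def nwt (N : Finset ℤ) (p : ℤ → Module.End K V) (c m : ℤ) : Module.End K V :=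
  (m : K)⁻¹ • ∑ n ∈ N, (2 * (n : K) - c) • p n

variable {N : Finset ℤ} {p : ℤ → Module.End K V} {c m : ℤ}

/-- Powers of the parameter. -/
noncomputable def lam (N : Finset ℤ) (p : ℤ → Module.End K V) (t : K) : Module.End K V :=
  ∑ n ∈ N, t ^ n • p n

/-- `p n` for `n ∈ N` are orthogonal idempotents with sum one. -/
structure Dec (N : Finset ℤ) (p : ℤ → Module.End K V) : Prop where
  mul : ∀ a ∈ N, ∀ b ∈ N, p a * p b = if a = b then p a else 0
  sum : ∑ n ∈ N, p n = 1

lemma Dec.lam_mul (hp : Dec N p) {t : K} (ht : t ≠ 0) : lam N p t * lam N p t⁻¹ = 1 := by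
  unfold lam
  rw [Finset.sum_mul]
  rw [← hp.sum]
  refine Finset.sum_congr rfl fun a ha => ?_
  rw [Finset.mul_sum, Finset.sum_eq_single a]
  · rw [smul_mul_smul_comm, hp.mul a ha a ha, if_pos rfl, inv_zpow, mul_inv_cancel₀
      (zpow_ne_zero a ht), one_smul]
  · intro b hb hba
    rw [smul_mul_smul_comm, hp.mul a ha b hb, if_neg (Ne.symm hba), smul_zero]
  · intro h; exact absurd ha h

lemma Dec.mul_nwt (hp : Dec N p) {a : ℤ} (ha : a ∈ N) :
    p a * nwt N p c m = ((m : K)⁻¹ * (2 * (a : K) - c)) • p a := by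
  unfold nwt
  rw [mul_smul_comm, Finset.mul_sum, Finset.sum_eq_single a]
  · rw [mul_smul_comm, hp.mul a ha a ha, if_pos rfl, smul_smul]
  · intro b hb hba
    rw [mul_smul_comm, hp.mul a ha b hb, if_neg (Ne.symm hba), smul_zero]
  · intro h; exact absurd ha h

lemma Dec.nwt_mul (hp : Dec N p) {a : ℤ} (ha : a ∈ N) :
    nwt N p c m * p a = ((m : K)⁻¹ * (2 * (a : K) - c)) • p a := by
  unfold nwt
  rw [smul_mul_assoc, Finset.sum_mul, Finset.sum_eq_single a]
  · rw [smul_mul_assoc, hp.mul a ha a ha, if_pos rfl, smul_smul]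
  · intro b hb hba
    rw [smul_mul_assoc, hp.mul b hb a ha, if_neg hba, smul_zero]
  · intro h; exact absurd ha h

/-- The weighted operator is infinitesimally symplectic. -/
lemma Dec.nwt_sk [CharZero K]
    (hω : ∀ t : K, t ≠ 0 → ∀ v w, ω (lam N p t v) (lam N p t w) = t ^ c * ω v w)
    (hp : Dec N p) : IsSk ω (nwt N p c m) := by
  intro v w
  have hsum : ∀ v, ∑ a ∈ N, p a v = v := by
    intro v
    have := LinearMap.congr_fun hp.sum v
    rwa [LinearMap.sum_apply] at this
  have h1 := laurent_eq (E := K) (N ×ˢ N) (fun ab => ab.1 + ab.2)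
    (fun ab => ω (p ab.1 v) (p ab.2 w)) c (ω v w) (by
      intro t ht
      have hl : ∀ u, lam N p t u = ∑ a ∈ N, t ^ a • p a u := by
        intro u
        unfold lam
        rw [LinearMap.sum_apply]
        rfl
      rw [smul_eq_mul, ← hω t ht v w, hl v, hl w, map_sum ω, LinearMap.sum_apply,
        Finset.sum_product]
      refine Finset.sum_congr rfl fun a _ => ?_
      rw [map_sum]
      refine Finset.sum_congr rfl fun b _ => ?_
      rw [map_smul, map_smul, LinearMap.smul_apply,
        smul_smul, zpow_add₀ ht, mul_comm (t ^ b)]) (fun n => (n : K))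
  have h2 : ω (nwt N p c m v) w + ω v (nwt N p c m w) =
      (m : K)⁻¹ * (2 * ∑ ab ∈ N ×ˢ N, ((ab.1 + ab.2 : ℤ) : K) • ω (p ab.1 v) (p ab.2 w) -
        2 * (c : K) * ω v w) := by
    have e1 : ω (nwt N p c m v) w =
        (m : K)⁻¹ * ∑ a ∈ N, (2 * (a : K) - c) * ω (p a v) w := by
      unfold nwt
      rw [LinearMap.smul_apply, LinearMap.sum_apply, map_smul, LinearMap.smul_apply, map_sum,
        LinearMap.sum_apply, smul_eq_mul]
      congr 1
      refine Finset.sum_congr rfl fun a _ => ?_
      rw [LinearMap.smul_apply, map_smul, LinearMap.smul_apply, smul_eq_mul]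
    have e2 : ω v (nwt N p c m w) =
        (m : K)⁻¹ * ∑ b ∈ N, (2 * (b : K) - c) * ω v (p b w) := by
      unfold nwt
      rw [LinearMap.smul_apply, LinearMap.sum_apply, map_smul, map_sum, smul_eq_mul]
      congr 1
      refine Finset.sum_congr rfl fun a _ => ?_
      rw [LinearMap.smul_apply, map_smul, smul_eq_mul]
    have e3 : ∑ a ∈ N, (2 * (a : K) - c) * ω (p a v) w =
        2 * ∑ a ∈ N, (a : K) * ω (p a v) w - c * ω v w := by
      rw [Finset.mul_sum]
      have : ω v w = ∑ a ∈ N, ω (p a v) w := by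
        nth_rewrite 1 [← hsum v]
        rw [map_sum, LinearMap.sum_apply]
      rw [this, Finset.mul_sum, ← Finset.sum_sub_distrib]
      exact Finset.sum_congr rfl fun a _ => by ring
    have e4 : ∑ b ∈ N, (2 * (b : K) - c) * ω v (p b w) =
        2 * ∑ b ∈ N, (b : K) * ω v (p b w) - c * ω v w := by
      rw [Finset.mul_sum]
      have : ω v w = ∑ b ∈ N, ω v (p b w) := by
        nth_rewrite 1 [← hsum w]
        rw [map_sum]
      rw [this, Finset.mul_sum, ← Finset.sum_sub_distrib]
      exact Finset.sum_congr rfl fun a _ => by ring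
    have e5 : ∑ ab ∈ N ×ˢ N, ((ab.1 + ab.2 : ℤ) : K) • ω (p ab.1 v) (p ab.2 w) =
        ∑ a ∈ N, (a : K) * ω (p a v) w + ∑ b ∈ N, (b : K) * ω v (p b w) := by
      have e6 : ∑ a ∈ N, (a : K) * ω (p a v) w =
          ∑ a ∈ N, ∑ b ∈ N, (a : K) * ω (p a v) (p b w) := by
        refine Finset.sum_congr rfl fun a _ => ?_
        rw [← Finset.mul_sum, ← map_sum, hsum]
      have e7 : ∑ b ∈ N, (b : K) * ω v (p b w) =
          ∑ a ∈ N, ∑ b ∈ N, (b : K) * ω (p a v) (p b w) := by
        rw [Finset.sum_comm]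
        refine Finset.sum_congr rfl fun b _ => ?_
        rw [← Finset.mul_sum]
        congr 1
        nth_rewrite 1 [← hsum v]
        rw [map_sum, LinearMap.sum_apply]
      rw [e6, e7, ← Finset.sum_add_distrib, Finset.sum_product]
      refine Finset.sum_congr rfl fun a _ => ?_
      rw [← Finset.sum_add_distrib]
      refine Finset.sum_congr rfl fun b _ => ?_
      push_cast
      rw [smul_eq_mul]; ring
    rw [e1, e2, e3, e4, e5]
    ring
  rw [h1, smul_eq_mul] at h2
  have h3 : ω (nwt N p c m v) w + ω v (nwt N p c m w) = 0 := by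
    rw [h2]; ring
  linear_combination h3

/-- The weighted operator normalises every space stable under the cocharacter. -/
lemma Dec.nwt_norm [CharZero K] (hp : Dec N p) {L : Submodule K (Module.End K V)}
    (hL : ∀ t : K, t ≠ 0 → ∀ x ∈ L, lam N p t * x * lam N p t⁻¹ ∈ L)
    {x : Module.End K V} (hx : x ∈ L) :
    nwt N p c m * x - x * nwt N p c m ∈ L := by
  have h1 := laurent_sum L (N ×ˢ N) (fun ab => ab.1 - ab.2) (fun ab => p ab.1 * x * p ab.2) (by
    intro t ht
    have h2 := hL t ht x hx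
    refine (congrArg (· ∈ L) ?_).mp h2
    unfold lam
    rw [Finset.sum_mul, Finset.sum_mul, Finset.sum_product]
    refine Finset.sum_congr rfl fun a _ => ?_
    rw [Finset.mul_sum]
    refine Finset.sum_congr rfl fun b _ => ?_
    rw [smul_mul_assoc, smul_mul_smul_comm, inv_zpow, ← zpow_neg, ← zpow_add₀ ht,
      ← sub_eq_add_neg]) (fun n => (n : K))
  have h2 := L.smul_mem (2 * (m : K)⁻¹) h1
  refine (congrArg (· ∈ L) ?_).mp h2
  have e1 : nwt N p c m * x =
      ∑ a ∈ N, ∑ b ∈ N, ((m : K)⁻¹ * (2 * (a : K) - c)) • (p a * x * p b) := by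
    have : nwt N p c m = ∑ a ∈ N, ((m : K)⁻¹ * (2 * (a : K) - c)) • p a := by
      unfold nwt
      rw [Finset.smul_sum]
      exact Finset.sum_congr rfl fun a _ => by rw [smul_smul]
    rw [this, Finset.sum_mul]
    refine Finset.sum_congr rfl fun a _ => ?_
    rw [← Finset.smul_sum, ← Finset.mul_sum, hp.sum, mul_one, smul_mul_assoc]
  have e2 : x * nwt N p c m =
      ∑ a ∈ N, ∑ b ∈ N, ((m : K)⁻¹ * (2 * (b : K) - c)) • (p a * x * p b) := by
    have : nwt N p c m = ∑ a ∈ N, ((m : K)⁻¹ * (2 * (a : K) - c)) • p a := by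
      unfold nwt
      rw [Finset.smul_sum]
      exact Finset.sum_congr rfl fun a _ => by rw [smul_smul]
    rw [this, Finset.mul_sum, Finset.sum_comm]
    refine Finset.sum_congr rfl fun b _ => ?_
    rw [← Finset.smul_sum, ← Finset.sum_mul, ← Finset.sum_mul, hp.sum, one_mul, mul_smul_comm]
  rw [e1, e2, ← Finset.sum_sub_distrib, Finset.sum_product, Finset.smul_sum]
  refine Finset.sum_congr rfl fun a _ => ?_
  rw [← Finset.sum_sub_distrib, Finset.smul_sum]
  refine Finset.sum_congr rfl fun b _ => ?_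
  rw [← sub_smul, smul_smul]
  congr 1
  push_cast
  ring

variable (hm : m ≠ 0) (hdvd : ∀ n ∈ N, p n ≠ 0 → m ∣ 2 * n - c)
include hm hdvd

/-- The weights. -/
lemma Dec.eig [CharZero K] (hp : Dec N p) {a : ℤ} (ha : a ∈ N) (v : V) :
    nwt N p c m (p a v) = (((2 * a - c) / m : ℤ) : K) • p a v := by
  by_cases h0 : p a = 0
  · rw [h0]; simp
  · have h1 : nwt N p c m (p a v) = ((m : K)⁻¹ * (2 * (a : K) - c)) • p a v :=
      LinearMap.congr_fun (hp.nwt_mul ha) v
    rw [h1]
    congr 1
    obtain ⟨k, hk⟩ := hdvd a ha h0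
    have hmK : (m : K) ≠ 0 := by exact_mod_cast hm
    rw [hk, Int.mul_ediv_cancel_left _ hm]
    have : (2 * (a : K) - c) = m * k := by exact_mod_cast congrArg (Int.cast : ℤ → K) hk
    rw [this, inv_mul_cancel_left₀ hmK]

lemma Dec.eig' [CharZero K] (hp : Dec N p) {a : ℤ} (ha : a ∈ N) (v : V) :
    p a (nwt N p c m v) = (((2 * a - c) / m : ℤ) : K) • p a v := by
  have h1 : p a (nwt N p c m v) = ((m : K)⁻¹ * (2 * (a : K) - c)) • p a v :=
    LinearMap.congr_fun (hp.mul_nwt ha) v
  have h2 : nwt N p c m (p a v) = ((m : K)⁻¹ * (2 * (a : K) - c)) • p a v :=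
    LinearMap.congr_fun (hp.nwt_mul ha) v
  rw [h1, ← h2, hp.eig hm hdvd ha]

/-- The weighted operator is diagonalizable with integral eigenvalues. -/
lemma Dec.diag [CharZero K] (hp : Dec N p) :
    ⨆ n : ℤ, (nwt N p c m).eigenspace (n : K) = ⊤ := by
  rw [eq_top_iff]
  intro v _
  have hv : v = ∑ a ∈ N, p a v := by
    have := LinearMap.congr_fun hp.sum v
    rw [LinearMap.sum_apply] at this
    exact this.symm
  rw [hv]
  apply Submodule.sum_mem
  intro a ha
  apply Submodule.mem_iSup_of_mem ((2 * a - c) / m)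
  rw [Module.End.mem_eigenspace_iff]
  exact hp.eig hm hdvd ha v

/-- The number of odd eigenvalues. -/
lemma Dec.nodd_eq [CharZero K] [FiniteDimensional K V] (hp : Dec N p) :
    Pool.Agent.Helper54.MT.nodd (nwt N p c m) =
      ∑ n ∈ N with Odd ((2 * n - c) / m), rk (p n) := by
  classical
  set Q : Module.End K V := ∑ n ∈ N with Odd ((2 * n - c) / m), p n with hQ
  have hsum : ∀ v, ∑ a ∈ N, p a v = v := by
    intro v
    have := LinearMap.congr_fun hp.sum v
    rwa [LinearMap.sum_apply] at this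
  have hmem : ∀ v, Q v ∈ Pool.Agent.Helper54.MT.oddPart (nwt N p c m) := by
    intro v
    rw [hQ, LinearMap.sum_apply]
    apply Submodule.sum_mem
    intro a ha
    rw [Finset.mem_filter] at ha
    unfold Pool.Agent.Helper54.MT.oddPart
    apply Submodule.mem_iSup_of_mem (p := fun k : {k : ℤ // Odd k} =>
      (nwt N p c m).eigenspace ((k : ℤ) : K)) ⟨(2 * a - c) / m, ha.2⟩
    rw [Module.End.mem_eigenspace_iff]
    exact hp.eig hm hdvd ha.1 v
  have hfix : ∀ v ∈ Pool.Agent.Helper54.MT.oddPart (nwt N p c m), Q v = v := by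
    intro v hv
    unfold Pool.Agent.Helper54.MT.oddPart at hv
    induction hv using Submodule.iSup_induction' with
    | mem k x hx =>
      rw [Module.End.mem_eigenspace_iff] at hx
      have hz : ∀ a ∈ N, p a x ≠ 0 → (2 * a - c) / m = k := by
        intro a ha h0
        have h1 := hp.eig' hm hdvd ha x
        rw [hx, map_smul] at h1
        have h2 : (((k : ℤ) : K) - (((2 * a - c) / m : ℤ) : K)) • p a x = 0 := by
          rw [sub_smul, h1, sub_self]
        rcases smul_eq_zero.mp h2 with h3 | h3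
        · have h4 : ((k : ℤ) : K) = (((2 * a - c) / m : ℤ) : K) := sub_eq_zero.mp h3
          exact (Int.cast_injective h4).symm
        · exact absurd h3 h0
      rw [hQ, LinearMap.sum_apply]
      nth_rewrite 2 [← hsum x]
      rw [Finset.sum_filter]
      refine Finset.sum_congr rfl fun a ha => ?_
      split_ifs with ho
      · rfl
      · by_contra hne
        have := hz a ha (Ne.symm hne)
        rw [this] at ho
        exact ho k.2
    | zero => rw [map_zero]
    | add x z _ _ hx hz => rw [map_add, hx, hz]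
  have hproj : LinearMap.IsProj (Pool.Agent.Helper54.MT.oddPart (nwt N p c m)) Q :=
    ⟨hmem, hfix⟩
  have ht := hproj.trace
  have hr : ∀ a ∈ N, LinearMap.trace K V (p a) = (rk (p a) : K) := by
    intro a ha
    have : LinearMap.IsProj (LinearMap.range (p a)) (p a) := by
      constructor
      · intro v; exact ⟨v, rfl⟩
      · rintro _ ⟨v, rfl⟩
        have := LinearMap.congr_fun (hp.mul a ha a ha) v
        rw [if_pos rfl] at this
        exact this
    exact this.trace
  have h1 : ((Pool.Agent.Helper54.MT.nodd (nwt N p c m) : ℕ) : K) =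
      ((∑ n ∈ N with Odd ((2 * n - c) / m), rk (p n) : ℕ) : K) := by
    unfold Pool.Agent.Helper54.MT.nodd
    rw [← ht, hQ, map_sum]
    push_cast
    refine Finset.sum_congr rfl fun a ha => ?_
    exact hr a (Finset.mem_filter.mp ha).1
  exact_mod_cast h1

end one

end MTP
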