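import Pool.Agent.Helper21.MT.Defs

/-!
Cocharacters of a group of similitudes, with arbitrary weights.
-/

open Module

namespace MTPairs

variable {K : Type*} [Field K] {m : Type*} [Fintype m] [DecidableEq m]

/-- The orthogonal idempotent matrices `p n`, for `n` in the finite set `N` of integers, define a
cocharacter `t ↦ ∑ n, t ^ n p n` of `G`, whose multiplier is `t ^ c`. -/
structure IsWeightCochar (J : Matrix m m K) (G : Subgroup (Matrix.GeneralLinearGroup m K))
    (N : Finset ℤ) (p : ℤ → Matrix m m K) (c : ℤ) : Prop where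
  mul : ∀ a ∈ N, ∀ b ∈ N, p a * p b = if a = b then p a else 0
  sum : ∑ n ∈ N, p n = 1
  mem : ∀ t : K, t ≠ 0 → ∃ g ∈ G, (g : Matrix m m K) = ∑ n ∈ N, t ^ n • p n ∧
    (g : Matrix m m K).transpose * J * (g : Matrix m m K) = t ^ c • J

/-- The number of weights `n` on the subspace `U`, counted with multiplicity, such that
`(2 n - c) / d` is odd. -/
noncomputable def oddWeights (N : Finset ℤ) (p : ℤ → Matrix m m K) (c d : ℤ)
    (U : Submodule K (m → K)) : ℕ :=
  ∑ n ∈ N with Odd ((2 * n - c) / d), finrank K (U.map (p n).mulVecLin)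

end MTPairs
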