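import Pool.Agent.Helper34.MT.Base2
import Pool.Agent.Helper34.MT.Newton
import Pool.Agent.Helper34.MT.NewtonDefs
import Pool.Agent.Helper21.MT.Gour3

/-!
The group theorem for cocharacters with many weights: reduction to the Lie algebra statement at
each of the factors.
-/

open Module MTPairs

namespace MTP

section family
variable {K : Type*} [Field K] {ι : Type*} [Fintype ι] [DecidableEq ι] {W : ι → Type*}
  [∀ j, AddCommGroup (W j)] [∀ j, Module K (W j)] [∀ j, FiniteDimensional K (W j)]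
  {σ : Type*} [Fintype σ]
  {ω : ∀ j, LinearMap.BilinForm K (W j)} {b : Basis σ K (∀ j, Module.End K (W j))}
  {G : Set (∀ j, Module.End K (W j))}

/-- The projections of the Lie algebra contain the weighted operators of the cocharacters. -/
lemma GrpBase.nwt_mem [IsAlgClosed K] [CharZero K] (D : GrpBase ω b G) (j : ι) {N : Finset ℤ}
    {p : ℤ → ∀ j, Module.End K (W j)} {c d : ℤ}
    (hG : ∀ t : K, t ≠ 0 → ∑ n ∈ N, t ^ n • p n ∈ G) (hdec : Dec N (fun n => p n j))
    (hmult : ∀ t : K, t ≠ 0 → ∀ v w, ω j (lam N (fun n => p n j) t v)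
      (lam N (fun n => p n j) t w) = t ^ c * ω j v w) :
    nwt N (fun n => p n j) c d ∈
      lieGen K ((Pi.evalAlgHom K (fun j => Module.End K (W j)) j) '' (Inv ω G)) := by
  have hctx := D.ctx j
  set Lj := lieGen K ((Pi.evalAlgHom K (fun j => Module.End K (W j)) j) '' (Inv ω G)) with hLj
  have hmap : ∀ x, x ∈ Lj ↔ ∃ y ∈ lieGen K (Inv ω G), y j = x := by
    intro x
    rw [hLj, ← lieGen_map]
    rfl
  have hlam : ∀ t : K, (∑ n ∈ N, t ^ n • p n) j = lam N (fun n => p n j) t := by
    intro t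
    rw [Finset.sum_apply]
    rfl
  apply hctx.irr.mem_of_normalize hctx.nd (hdec.nwt_sk hmult)
  intro x hx
  apply hdec.nwt_norm _ hx
  intro t ht x hx
  obtain ⟨y, hy, rfl⟩ := (hmap x).mp hx
  obtain ⟨h, hh, hgh, hhg⟩ := D.inv _ (hG t ht)
  have hhj : h j = lam N (fun n => p n j) t⁻¹ := by
    have e1 : h j * lam N (fun n => p n j) t = 1 := by
      rw [← hlam]; exact congrFun hhg j
    calc h j = h j * (lam N (fun n => p n j) t * lam N (fun n => p n j) t⁻¹) := by
          rw [hdec.lam_mul ht, mul_one]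
      _ = (h j * lam N (fun n => p n j) t) * lam N (fun n => p n j) t⁻¹ := by rw [mul_assoc]
      _ = _ := by rw [e1, one_mul]
  rw [hmap]
  refine ⟨(∑ n ∈ N, t ^ n • p n) * y * h, D.lie_conj (hG t ht) hh hgh hhg hy, ?_⟩
  rw [Pi.mul_apply, Pi.mul_apply, hlam, hhj]

/-- The projection of the Lie algebra to a factor which satisfies the parity condition. -/
theorem GrpBase.proj_of_newton [IsAlgClosed K] [CharZero K] (D : GrpBase ω b G) (j : ι)
    {N : Finset ℤ} {p : ℤ → ∀ j, Module.End K (W j)} {c d : ℤ}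
    (hG : ∀ t : K, t ≠ 0 → ∑ n ∈ N, t ^ n • p n ∈ G) (hdec : Dec N (fun n => p n j))
    (hmult : ∀ t : K, t ≠ 0 → ∀ v w, ω j (lam N (fun n => p n j) t v)
      (lam N (fun n => p n j) t w) = t ^ c * ω j v w)
    (hd : d ≠ 0) (hdvd : ∀ n ∈ N, p n j ≠ 0 → d ∣ 2 * n - c)
    (h4 : (∑ n ∈ N with Odd ((2 * n - c) / d), rk (p n j)) % 4 = 2)
    (hne : 2 * (∑ n ∈ N with Odd ((2 * n - c) / d), rk (p n j)) ≠ finrank K (W j))
    (hmod : ∀ (L : Submodule K (Module.End K (W j))) (S : Set (Module.End K (W j))),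
      Ctx (ω j) L S → ∀ y ∈ L, (⨆ n : ℤ, y.eigenspace (n : K) = ⊤) →
      Pool.Agent.Helper54.MT.nodd y % 4 = 2 →
      2 * Pool.Agent.Helper54.MT.nodd y ≠ finrank K (W j) → ∀ z, IsSk (ω j) z → z ∈ L)
    {z : Module.End K (W j)} (hz : IsSk (ω j) z) : ∃ x ∈ lieGen K (Inv ω G), x j = z := by
  have h1 := D.nwt_mem j (d := d) hG hdec hmult
  have h2 := hdec.nodd_eq (c := c) hd hdvd
  have h3 := hmod _ _ (D.ctx j) _ h1 (hdec.diag hd hdvd) (by rw [h2]; exact h4)
    (by rw [h2]; exact hne) z hz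
  rw [← lieGen_map] at h3
  exact h3

end family

variable {K : Type*} [Field K] {m : Type*} [Fintype m] [DecidableEq m]
  {ι : Type*} [Fintype ι] [DecidableEq ι] {W : ι → Submodule K (m → K)}
  {J : Matrix m m K} {G : Subgroup (Matrix.GeneralLinearGroup m K)}

/-- **The group theorem** for cocharacters with arbitrary weights, given the Lie algebra
theorem at each of the factors. -/
theorem isFull_of_newton [IsAlgClosed K] [CharZero K] (hG : IsMTPair J G) (hW : IsSplit J G W)
    (hn : ∀ j, ∃ (N : Finset ℤ) (p : ℤ → Matrix m m K) (c d : ℤ), IsWeightCochar J G N p c ∧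
      d ≠ 0 ∧ (∀ n ∈ N, (∃ v ∈ W j, (p n).mulVec v ≠ 0) → d ∣ 2 * n - c) ∧
      oddWeights N p c d (W j) % 4 = 2 ∧ 2 * oddWeights N p c d (W j) ≠ finrank K (W j))
    (hmod : ∀ j, ∀ (L : Submodule K (Module.End K (W j))) (S : Set (Module.End K (W j))),
      Ctx (form J W j) L S → ∀ y ∈ L, (⨆ n : ℤ, y.eigenspace (n : K) = ⊤) →
      Pool.Agent.Helper54.MT.nodd y % 4 = 2 →
      2 * Pool.Agent.Helper54.MT.nodd y ≠ finrank K (W j) → ∀ z, IsSk (form J W j) z → z ∈ L) :
    IsFull J G W := by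
  have h := hW.internal
  have hnt : ∀ j, W j ≠ ⊥ := by
    intro j hj
    obtain ⟨N, p, c, d, -, -, -, h4, -⟩ := hn j
    have : oddWeights N p c d (W j) = 0 := by
      unfold oddWeights
      apply Finset.sum_eq_zero
      intro n _
      rw [hj, Submodule.map_bot, finrank_bot]
    rw [this] at h4
    omega
  have hnt' : ∀ j, Nontrivial (W j) := fun j => (Submodule.nontrivial_iff_ne_bot).mpr (hnt j)
  refine isFull_of_proj hG hW hnt ?_ (fun L h1 h2 h3 h4 =>
    goursat hnt' (form J W) (form_nd hG.skew hG.det hW.internal hW.orth)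
      (form_alt hG.skew) L h1 h2 h3 h4)
  intro j z hz
  obtain ⟨n, ⟨b⟩⟩ := exists_basis (W := W)
  have D := grpBase b hG hW hnt
  obtain ⟨N, p, c, d, hp, hd, hdvd, h4, hne⟩ := hn j
  -- the idempotents preserve the summands
  have hpres : ∀ n ∈ N, ∀ i, ∀ v ∈ W i, (p n).mulVec v ∈ W i := by
    intro n hnN i v hv
    apply laurent_coeff (W i) N (fun n => (p n).mulVec v) _ n hnN
    intro t ht
    obtain ⟨g, hg, hgt, -⟩ := hp.mem t ht
    have h1 := hW.stable g hg i v hv
    rw [hgt, Matrix.sum_mulVec] at h1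
    refine (congrArg (· ∈ W i) (Finset.sum_congr rfl fun k _ => ?_)).mp h1
    rw [Matrix.smul_mulVec]
  have hex : ∀ n, ∃ a, n ∈ N → p n = mat h a := by
    intro n
    by_cases hnN : n ∈ N
    · obtain ⟨a, ha⟩ := exists_mat h (hpres n hnN)
      exact ⟨a, fun _ => ha⟩
    · exact ⟨0, fun h => absurd h hnN⟩
  choose a ha using hex
  have hmatsum : ∀ (f : ℤ → K), mat h (∑ n ∈ N, f n • a n) = ∑ n ∈ N, f n • p n := by
    intro f
    change matL h _ = _
    rw [map_sum]
    refine Finset.sum_congr rfl fun n hn => ?_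
    rw [map_smul]
    change f n • mat h (a n) = _
    rw [← ha n hn]
  have hdec : Dec N (fun n => a n j) := by
    constructor
    · intro x hx y hy
      have h1 := hp.mul x hx y hy
      have h2 : a x * a y = if x = y then a x else 0 := by
        apply mat_inj h
        rw [mat_mul, ← ha x hx, ← ha y hy, h1]
        split_ifs
        · exact ha x hx
        · exact (map_zero (matL h)).symm
      have h3 := congrFun h2 j
      rw [Pi.mul_apply] at h3
      rw [h3]
      split_ifs <;> rfl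
    · have h1 : ∑ n ∈ N, a n = 1 := by
        apply mat_inj h
        have h2 := hmatsum (fun _ => 1)
        simp only [one_smul] at h2
        rw [h2, mat_one, hp.sum]
      have h3 := congrFun h1 j
      rw [Finset.sum_apply] at h3
      exact h3
  have hmem : ∀ t : K, t ≠ 0 → ∑ n ∈ N, t ^ n • a n ∈ GS G h := by
    intro t ht
    obtain ⟨g, hg, hgt, -⟩ := hp.mem t ht
    exact ⟨g, hg, by rw [hgt, hmatsum fun n => t ^ n]⟩
  have hmult : ∀ t : K, t ≠ 0 → ∀ v w, form J W j (lam N (fun n => a n j) t v)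
      (lam N (fun n => a n j) t w) = t ^ c * form J W j v w := by
    intro t ht v w
    obtain ⟨g, hg, hgt, hgc⟩ := hp.mem t ht
    have h1 : (g : Matrix m m K) = mat h (∑ n ∈ N, t ^ n • a n) := by
      rw [hgt, hmatsum fun n => t ^ n]
    have h2 := sim_form h h1 hgc j v w
    have h3 : (∑ n ∈ N, t ^ n • a n) j = lam N (fun n => a n j) t := by
      rw [Finset.sum_apply]; rfl
    rwa [h3] at h2
  have hrk : ∀ n ∈ N, rk (a n j) = finrank K ((W j).map (p n).mulVecLin) := by
    intro n hn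
    rw [finrank_range_restrict h (a n) j, ← ha n hn]
  have hodd : ∑ n ∈ N with Odd ((2 * n - c) / d), rk (a n j) = oddWeights N p c d (W j) := by
    unfold oddWeights
    exact Finset.sum_congr rfl fun n hn => hrk n (Finset.mem_filter.mp hn).1
  apply D.proj_of_newton j hmem hdec hmult hd _ (by rw [hodd]; exact h4)
    (by rw [hodd]; exact hne) (hmod j) hz
  intro n hnN h0
  apply hdvd n hnN
  by_contra hcon
  push Not at hcon
  apply h0
  ext1 v
  apply Subtype.ext
  have := hcon v v.2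
  rw [ha n hnN, mat_mulVec] at this
  rw [this]
  rfl

end MTP
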