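import Pool.Agent.Helper21.MT.Defs

/-!
Counting eigenvalues on a stable subspace.
-/

open Module

namespace MTPairs

variable {K : Type*} [Field K] {m : Type*} [Fintype m] [DecidableEq m]

/-- The number of eigenvalues of `g` on the stable subspace `U`, counted with algebraic
multiplicity, which lie in the set `S`: the dimension of the sum of the corresponding generalised
eigenspaces of `g` in `U`. -/
noncomputable def eigCount (g : Matrix m m K) (U : Submodule K (m → K)) (S : Set K) : ℕ :=
  finrank K (⨆ α ∈ S, U ⊓ Module.End.maxGenEigenspace (Matrix.toLin' g) α : Submodule K (m → K))

end MTPairs
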