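import Pool.Agent.Helper98.MT.NewtonIff
import Pool.Agent.Helper88.MT.SlopeDefs

/-!
Sharpness of the mod four theorem: pairs which are not full, with an element whose number of odd
slopes is a given multiple of four, or half of the dimension.
-/

open Module MTPairs
open scoped Kronecker

namespace MTP

section diag
variable {K : Type*} [Field K] {m : Type*} [Fintype m] [DecidableEq m]

open Classical in
/-- The odd slopes of a diagonal similitude. -/
lemma hasOddSlopes_diagonal {J : Matrix m m K} {v : K → ℚ} {γ : Matrix.GeneralLinearGroup m K}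
    {f : m → K} (h : (γ : Matrix m m K) = Matrix.diagonal f) {c : K}
    (hc : (γ : Matrix m m K).transpose * J * (γ : Matrix m m K) = c • J) {d : ℚ} (hd : d ≠ 0)
    (hint : ∀ i, ∃ k : ℤ, v (f i) = v c / 2 + k * d) :
    HasOddSlopes J v γ ⊤
      (Finset.univ.filter fun i => ∃ k : ℤ, Odd k ∧ v (f i) = v c / 2 + k * d).card := by
  let φ : Module.End K (⊤ : Submodule K (m → K)) :=
    (Matrix.toLin' (γ : Matrix m m K)).restrict (p := ⊤) (q := ⊤) (fun _ _ => trivial)
  have h1 : φ.charpoly = (γ : Matrix m m K).charpoly := by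
    rw [← Matrix.charpoly_toLin', ← LinearEquiv.charpoly_conj Submodule.topEquiv φ]
    congr 1
  have h2 : φ.charpoly.roots = Finset.univ.val.map f := by
    rw [h1, h, Matrix.charpoly_diagonal]
    have : (∏ i, (Polynomial.X - Polynomial.C (f i))) =
        ((Finset.univ.val.map f).map fun a => Polynomial.X - Polynomial.C a).prod := by
      rw [Multiset.map_map]; rfl
    rw [this, Polynomial.roots_multiset_prod_X_sub_C]
  refine ⟨c, d, φ, hc, hd, fun u => rfl, ?_, ?_⟩
  · intro α hα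
    rw [h2, Multiset.mem_map] at hα
    obtain ⟨i, -, rfl⟩ := hα
    exact hint i
  · rw [h2, Multiset.filter_map, Multiset.card_map]
    rfl

end diag

section sharp
variable {K : Type*} [Field K] {b : ℕ}

lemma torus_right (s : K) (d : Fin b → Fin 2) :
    s • ((1 : Matrix (Fin 2) (Fin 2) K) ⊗ₖ Dd K d) +
      (1 - (1 : Matrix (Fin 2) (Fin 2) K) ⊗ₖ Dd K d) =
    Matrix.diagonal (fun x : Fin 2 × (Fin 2 × Fin b) => if x.2.1 = d x.2.2 then s else 1) := by
  have h1 : (1 : Matrix (Fin 2) (Fin 2) K) ⊗ₖ Dd K d = Matrix.diagonal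
      (fun x : Fin 2 × (Fin 2 × Fin b) => if x.2.1 = d x.2.2 then (1 : K) else 0) := by
    ext ⟨i, x⟩ ⟨j, y⟩
    rw [Matrix.kroneckerMap_apply, Matrix.one_apply, Dd, Matrix.diagonal_apply,
      Matrix.diagonal_apply]
    by_cases h1 : i = j <;> by_cases h2 : x = y <;> simp [h1, h2]
  rw [h1]
  ext x y
  rw [Matrix.add_apply, Matrix.smul_apply, Matrix.sub_apply, Matrix.diagonal_apply,
    Matrix.diagonal_apply, Matrix.one_apply]
  by_cases hxy : x = y
  · by_cases h2 : x.2.1 = d x.2.2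
    · simp [hxy, hxy ▸ h2]
    · have h3 : ¬ y.2.1 = d y.2.2 := hxy ▸ h2
      simp [hxy, h3]
  · simp [hxy]

lemma torus_left (s : K) :
    s • ((!![1, 0; 0, 0] : Matrix (Fin 2) (Fin 2) K) ⊗ₖ
        (1 : Matrix (Fin 2 × Fin b) (Fin 2 × Fin b) K)) +
      (1 - (!![1, 0; 0, 0] : Matrix (Fin 2) (Fin 2) K) ⊗ₖ
        (1 : Matrix (Fin 2 × Fin b) (Fin 2 × Fin b) K)) =
    Matrix.diagonal (fun x : Fin 2 × (Fin 2 × Fin b) => if x.1 = 0 then s else 1) := by
  have h1 : (!![1, 0; 0, 0] : Matrix (Fin 2) (Fin 2) K) ⊗ₖ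
      (1 : Matrix (Fin 2 × Fin b) (Fin 2 × Fin b) K) = Matrix.diagonal
      (fun x : Fin 2 × (Fin 2 × Fin b) => if x.1 = 0 then (1 : K) else 0) := by
    ext ⟨i, x⟩ ⟨j, y⟩
    rw [Matrix.kroneckerMap_apply, Matrix.one_apply, Matrix.diagonal_apply]
    by_cases h2 : x = y
    · fin_cases i <;> fin_cases j <;> simp [h2]
    · fin_cases i <;> fin_cases j <;> simp [h2]
  rw [h1]
  ext x y
  rw [Matrix.add_apply, Matrix.smul_apply, Matrix.sub_apply, Matrix.diagonal_apply,
    Matrix.diagonal_apply, Matrix.one_apply]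
  by_cases hxy : x = y
  · by_cases h2 : x.1 = 0
    · simp [hxy, hxy ▸ h2]
    · have h3 : ¬ y.1 = 0 := hxy ▸ h2
      simp [hxy, h3]
  · simp [hxy]

/-- Nonzero entries of the Gram matrix. -/
lemma Jm_ne {x y : Fin 2 × (Fin 2 × Fin b)} (h : Jm K b x y ≠ 0) :
    y = (x.1 + 1, (x.2.1 + 1, x.2.2)) := by
  obtain ⟨i, p⟩ := x
  obtain ⟨j, q⟩ := y
  rw [Jm, Matrix.kroneckerMap_apply] at h
  have h1 := left_ne_zero_of_mul h
  have h2 := right_ne_zero_of_mul h
  have e2 : q = tau p := by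
    by_contra hq
    apply h2
    simp [Qm, hq]
  have e1 : j = i + 1 := by
    by_contra hj
    apply h1
    fin_cases i <;> fin_cases j <;> simp_all [Em]
  rw [e1, e2]
  rfl

/-- The multiplier of a diagonal matrix. -/
lemma diagonal_sim {f : Fin 2 × (Fin 2 × Fin b) → K} {c : K}
    (h : ∀ i s l, f (i, (s, l)) * f (i + 1, (s + 1, l)) = c) :
    (Matrix.diagonal f).transpose * Jm K b * Matrix.diagonal f = c • Jm K b := by
  ext x y
  rw [Matrix.diagonal_transpose, Matrix.mul_diagonal, Matrix.diagonal_mul, Matrix.smul_apply,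
    smul_eq_mul]
  by_cases h0 : Jm K b x y = 0
  · rw [h0]; ring
  · have e := Jm_ne h0
    have h1 := h x.1 x.2.1 x.2.2
    rw [← e] at h1
    have h2 : f (x.1, (x.2.1, x.2.2)) = f x := rfl
    rw [h2] at h1
    rw [← h1]; ring

/-- The first diagonal element. -/
def entA (k : ℕ) (t : K) (x : Fin 2 × (Fin 2 × Fin b)) : K :=
  if (x.2.2 : ℕ) < k then (if x.2.1 = 0 then t else t⁻¹) else 1

lemma exists_diagA (k : ℕ) {t : K} (ht : t ≠ 0) : ∃ γ ∈ GenG (Gens K b),
    (γ : Matrix (Fin 2 × (Fin 2 × Fin b)) (Fin 2 × (Fin 2 × Fin b)) K) =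
      Matrix.diagonal (entA k t) := by
  let d : Fin b → Fin 2 := fun _ => 0
  let d' : Fin b → Fin 2 := fun l => if (l : ℕ) < k then 1 else 0
  have hP1 : (1 : Matrix (Fin 2) (Fin 2) K) ⊗ₖ Dd K d ∈ Gens K b := Or.inr ⟨_, Dd_mem d, rfl⟩
  have hP2 : (1 : Matrix (Fin 2) (Fin 2) K) ⊗ₖ Dd K d' ∈ Gens K b := Or.inr ⟨_, Dd_mem d', rfl⟩
  obtain ⟨g1, hg1, hg1'⟩ := (GenG_cochar (Gens_idem _ hP1) hP1).2 t ht
  obtain ⟨g2, hg2, hg2'⟩ := (GenG_cochar (Gens_idem _ hP2) hP2).2 t⁻¹ (inv_ne_zero ht)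
  refine ⟨g1 * g2, (GenG (Gens K b)).mul_mem hg1 hg2, ?_⟩
  rw [Units.val_mul, hg1', hg2', torus_right, torus_right, Matrix.diagonal_mul_diagonal]
  congr 1
  ext ⟨i, s, l⟩
  simp only [entA, d, d']
  by_cases hk : (l : ℕ) < k
  · fin_cases s <;> simp [hk]
  · fin_cases s <;> simp [hk, ht]

/-- The second diagonal element. -/
def entB (t : K) (x : Fin 2 × (Fin 2 × Fin b)) : K :=
  (if x.1 = 0 then t else 1) * (if x.2.1 = 0 then t else 1)

lemma exists_diagB {t : K} (ht : t ≠ 0) : ∃ γ ∈ GenG (Gens K b),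
    (γ : Matrix (Fin 2 × (Fin 2 × Fin b)) (Fin 2 × (Fin 2 × Fin b)) K) =
      Matrix.diagonal (entB t) := by
  let d : Fin b → Fin 2 := fun _ => 0
  have hP1 : (!![1, 0; 0, 0] : Matrix (Fin 2) (Fin 2) K) ⊗ₖ
      (1 : Matrix (Fin 2 × Fin b) (Fin 2 × Fin b) K) ∈ Gens K b := Or.inl ⟨_, P1_mem, rfl⟩
  have hP2 : (1 : Matrix (Fin 2) (Fin 2) K) ⊗ₖ Dd K d ∈ Gens K b := Or.inr ⟨_, Dd_mem d, rfl⟩
  obtain ⟨g1, hg1, hg1'⟩ := (GenG_cochar (Gens_idem _ hP1) hP1).2 t ht
  obtain ⟨g2, hg2, hg2'⟩ := (GenG_cochar (Gens_idem _ hP2) hP2).2 t ht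
  refine ⟨g1 * g2, (GenG (Gens K b)).mul_mem hg1 hg2, ?_⟩
  rw [Units.val_mul, hg1', hg2', torus_left, torus_right, Matrix.diagonal_mul_diagonal]
  rfl

open Classical in
lemma card_A {k : ℕ} (hk : k ≤ b) :
    (Finset.univ.filter fun x : Fin 2 × (Fin 2 × Fin b) => (x.2.2 : ℕ) < k).card = 4 * k := by
  have h1 : (Finset.univ.filter fun x : Fin 2 × (Fin 2 × Fin b) => (x.2.2 : ℕ) < k) =
      (Finset.univ : Finset (Fin 2)) ×ˢ ((Finset.univ : Finset (Fin 2)) ×ˢ
        (Finset.univ.filter fun l : Fin b => (l : ℕ) < k)) := by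
    ext ⟨i, s, l⟩
    simp
  have h2 : (Finset.univ.filter fun l : Fin b => (l : ℕ) < k).card = k := by
    rw [← Fintype.card_subtype]
    exact Fintype.card_fin_lt_of_le hk
  rw [h1, Finset.card_product, Finset.card_product, h2]
  simp
  ring

open Classical in
lemma card_B :
    (Finset.univ.filter fun x : Fin 2 × (Fin 2 × Fin b) => x.1 = x.2.1).card = 2 * b := by
  rw [Finset.card_filter, Fintype.sum_prod_type]
  simp only [Fintype.sum_prod_type, Fin.sum_univ_two]
  simp
  ring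

/-- **Sharpness of the mod four theorem.** -/
theorem exists_slopes_counterexample (K : Type*) [Field K] [CharZero K] {b n : ℕ} (hb : 2 ≤ b)
    (hn : n ≤ 4 * b) (h : 4 ∣ n ∨ n = 2 * b) :
    ∃ G : Subgroup (Matrix.GeneralLinearGroup (Fin 2 × (Fin 2 × Fin b)) K),
      IsMTPair (Jm K b) G ∧ IsSplit (Jm K b) G (fun _ : Unit => ⊤) ∧
      (∃ γ ∈ G, ∃ v : K → ℚ, IsAdditive v ∧ HasOddSlopes (Jm K b) v γ ⊤ n) ∧
      ¬ IsFull (Jm K b) G (fun _ : Unit => ⊤) := by
  classical
  have hirr : Irr (GenG (Gens K b)) := by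
    intro U hU
    apply Gens_irr hb
    intro π hπ v hv
    obtain ⟨g, hg, hgt⟩ := (GenG_cochar (Gens_idem π hπ) hπ).2 2 two_ne_zero
    have h1 := hU g hg v hv
    have h2 : (g : Matrix _ _ K).mulVec v = π.mulVec v + v := by
      rw [hgt]
      have : (2 : K) • π + (1 - π) = π + 1 := by rw [two_smul]; abel
      rw [this, Matrix.add_mulVec, Matrix.one_mulVec]
    rw [h2] at h1
    have := U.sub_mem h1 hv
    rwa [add_sub_cancel_right] at this
  refine ⟨GenG (Gens K b), isMTPair_gen Jm_transpose Jm_det Gens_idem Gens_lag,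
    isSplit_top hirr, ?_, ?_⟩
  · obtain ⟨v, hv, hv2⟩ := exists_val K
    have ht : (2 : K) ≠ 0 := two_ne_zero
    have v1 : v 1 = 0 := by
      have := hv 1 1 one_ne_zero one_ne_zero
      rw [one_mul] at this
      linarith
    have vinv : v 2⁻¹ = - v 2 := by
      have := hv 2 2⁻¹ ht (inv_ne_zero ht)
      rw [mul_inv_cancel₀ ht, v1] at this
      linarith
    rcases h with ⟨k, rfl⟩ | rfl
    · have hk : k ≤ b := by omega
      obtain ⟨γ, hγ, hγe⟩ := exists_diagA (K := K) (b := b) k ht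
      have hsim : (γ : Matrix (Fin 2 × (Fin 2 × Fin b)) (Fin 2 × (Fin 2 × Fin b)) K).transpose *
          Jm K b * (γ : Matrix _ _ K) = (1 : K) • Jm K b := by
        rw [hγe]
        apply diagonal_sim
        intro i s l
        simp only [entA]
        by_cases hl : (l : ℕ) < k
        · fin_cases s <;> simp [hl]
        · simp [hl]
      have hval : ∀ x : Fin 2 × (Fin 2 × Fin b), v (entA k 2 x) = v 1 / 2 +
          ((if (x.2.2 : ℕ) < k then (if x.2.1 = 0 then 1 else -1) else 0 : ℤ) : ℚ) * v 2 := by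
        intro x
        unfold entA
        split_ifs <;> simp [v1, vinv]
      refine ⟨γ, hγ, v, hv, ?_⟩
      have key := hasOddSlopes_diagonal hγe hsim hv2 (fun x => ⟨_, hval x⟩)
      have e : (Finset.univ.filter fun x : Fin 2 × (Fin 2 × Fin b) =>
          ∃ j : ℤ, Odd j ∧ v (entA k 2 x) = v 1 / 2 + j * v 2).card = 4 * k := by
        rw [← card_A hk]
        congr 1
        ext x
        simp only [Finset.mem_filter, Finset.mem_univ, true_and]
        constructor
        · rintro ⟨j, hj, hx⟩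
          rw [hval x] at hx
          have h1 := mul_right_cancel₀ hv2 (add_left_cancel hx)
          have h2 : (if (x.2.2 : ℕ) < k then (if x.2.1 = 0 then 1 else -1) else 0 : ℤ) = j := by
            exact_mod_cast h1
          by_contra hlt
          rw [if_neg hlt] at h2
          rw [← h2] at hj
          exact absurd hj (by decide)
        · intro hlt
          refine ⟨_, ?_, hval x⟩
          rw [if_pos hlt]
          split_ifs <;> decide
      rw [e] at key
      exact key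
    · obtain ⟨γ, hγ, hγe⟩ := exists_diagB (K := K) (b := b) ht
      have hsim : (γ : Matrix (Fin 2 × (Fin 2 × Fin b)) (Fin 2 × (Fin 2 × Fin b)) K).transpose *
          Jm K b * (γ : Matrix _ _ K) = ((2 : K) * 2) • Jm K b := by
        rw [hγe]
        apply diagonal_sim
        intro i s l
        simp only [entB]
        fin_cases i <;> fin_cases s <;> simp
      have hval : ∀ x : Fin 2 × (Fin 2 × Fin b), v (entB 2 x) = v ((2 : K) * 2) / 2 +
          ((if x.1 = x.2.1 then (if x.1 = 0 then 1 else -1) else 0 : ℤ) : ℚ) * v 2 := by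
        rintro ⟨i, s, l⟩
        rw [hv 2 2 ht ht]
        simp only [entB]
        fin_cases i <;> fin_cases s <;> simp [v1, hv 2 2 ht ht]
      refine ⟨γ, hγ, v, hv, ?_⟩
      have key := hasOddSlopes_diagonal hγe hsim hv2 (fun x => ⟨_, hval x⟩)
      have e : (Finset.univ.filter fun x : Fin 2 × (Fin 2 × Fin b) =>
          ∃ j : ℤ, Odd j ∧ v (entB 2 x) = v ((2 : K) * 2) / 2 + j * v 2).card = 2 * b := by
        rw [← card_B]
        congr 1
        ext x
        simp only [Finset.mem_filter, Finset.mem_univ, true_and]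
        constructor
        · rintro ⟨j, hj, hx⟩
          rw [hval x] at hx
          have h1 := mul_right_cancel₀ hv2 (add_left_cancel hx)
          have h2 : (if x.1 = x.2.1 then (if x.1 = 0 then 1 else -1) else 0 : ℤ) = j := by
            exact_mod_cast h1
          by_contra hlt
          rw [if_neg hlt] at h2
          rw [← h2] at hj
          exact absurd hj (by decide)
        · intro hlt
          refine ⟨_, ?_, hval x⟩
          rw [if_pos hlt]
          split_ifs <;> decide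
      rw [e] at key
      exact key
  · intro hfull
    obtain ⟨g, hg, hgd⟩ := exists_not_dec (K := K) (b := b) (by omega)
    apply hgd
    have h1 := hfull g ⟨1, hg⟩ (fun _ _ _ => trivial)
    exact GenG_le (Dec_closed (by omega)) Gens_dec h1

end sharp

end MTP

namespace MTPairs

/-- **Sharpness of the mod four theorem.** -/
theorem exists_slopes_counterexample (K : Type*) [Field K] [CharZero K] {b n : ℕ} (hb : 2 ≤ b)
    (hn : n ≤ 4 * b) (h : 4 ∣ n ∨ n = 2 * b) :
    ∃ G : Subgroup (Matrix.GeneralLinearGroup (Fin 2 × (Fin 2 × Fin b)) K),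
      IsMTPair (Jm K b) G ∧ IsSplit (Jm K b) G (fun _ : Unit => ⊤) ∧
      (∃ γ ∈ G, ∃ v : K → ℚ, IsAdditive v ∧ HasOddSlopes (Jm K b) v γ ⊤ n) ∧
      ¬ IsFull (Jm K b) G (fun _ : Unit => ⊤) :=
  MTP.exists_slopes_counterexample K hb hn h

end MTPairs
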