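import Pool.Agent.Helper34.MT.Base2
import Pool.Agent.Helper34.MT.SlopeDefs
import Pool.Agent.Helper21.MT.Gour3
import Pool.Agent.Helper98.MT.Slope
import Pool.Agent.Helper88.MT.Simple

/-!
The mod four theorem for products, in terms of the slopes of elements of the group.
-/

open Module MTPairs

attribute [local instance 100] LieRing.ofAssociativeRing

namespace MTP

section one
variable {K : Type*} [Field K] {V : Type*} [AddCommGroup V] [Module K V] [FiniteDimensional K V]

/-- The number of odd eigenvalues of a diagonal operator. -/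
lemma nodd_diag [CharZero K] {I : Type*} [Fintype I] [DecidableEq I] (b : Basis I K V)
    {k : I → ℤ} {y : Module.End K V} (hy : ∀ i, y (b i) = (k i : K) • b i) :
    Pool.Agent.Helper54.MT.nodd y = (Finset.univ.filter fun i => Odd (k i)).card := by
  classical
  let Q : Module.End K V := b.constr K fun i => if Odd (k i) then b i else 0
  have hQ : ∀ i, Q (b i) = if Odd (k i) then b i else 0 := fun i => b.constr_basis K _ i
  have hyr : ∀ v i, b.repr (y v) i = (k i : K) * b.repr v i := by
    intro v i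
    have h2 : y v = ∑ j, (b.repr v j * (k j : K)) • b j := by
      nth_rewrite 1 [← b.sum_repr v]
      rw [map_sum]
      refine Finset.sum_congr rfl fun j _ => ?_
      rw [map_smul, hy, smul_smul]
    rw [h2, b.repr_sum_self, mul_comm]
  have hQv : ∀ v, Q v = ∑ i, b.repr v i • (if Odd (k i) then b i else 0) := by
    intro v
    nth_rewrite 1 [← b.sum_repr v]
    rw [map_sum]
    refine Finset.sum_congr rfl fun j _ => ?_
    rw [map_smul, hQ]
  have hmem : ∀ v, Q v ∈ Pool.Agent.Helper54.MT.oddPart y := by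
    intro v
    rw [hQv]
    apply Submodule.sum_mem
    intro i _
    apply Submodule.smul_mem
    split_ifs with ho
    · unfold Pool.Agent.Helper54.MT.oddPart
      apply Submodule.mem_iSup_of_mem (p := fun k : {k : ℤ // Odd k} =>
        y.eigenspace ((k : ℤ) : K)) ⟨k i, ho⟩
      rw [Module.End.mem_eigenspace_iff]
      exact hy i
    · exact Submodule.zero_mem _
  have hfix : ∀ v ∈ Pool.Agent.Helper54.MT.oddPart y, Q v = v := by
    intro v hv
    unfold Pool.Agent.Helper54.MT.oddPart at hv
    induction hv using Submodule.iSup_induction' with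
    | mem n x hx =>
      rw [Module.End.mem_eigenspace_iff] at hx
      rw [hQv]
      nth_rewrite 2 [← b.sum_repr x]
      refine Finset.sum_congr rfl fun i _ => ?_
      split_ifs with ho
      · rfl
      · have h1 := hyr x i
        rw [hx, map_smul, Finsupp.smul_apply, smul_eq_mul] at h1
        have h2 : b.repr x i = 0 := by
          by_contra h0
          have h3 := mul_right_cancel₀ h0 h1
          have h4 : (n : ℤ) = k i := by exact_mod_cast h3
          exact ho (h4 ▸ n.2)
        rw [h2, zero_smul, zero_smul]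
    | zero => rw [map_zero]
    | add x z _ _ hx hz => rw [map_add, hx, hz]
  have hproj : LinearMap.IsProj (Pool.Agent.Helper54.MT.oddPart y) Q := ⟨hmem, hfix⟩
  have ht := hproj.trace
  have h1 : LinearMap.trace K V Q = ((Finset.univ.filter fun i => Odd (k i)).card : K) := by
    rw [LinearMap.trace_eq_matrix_trace K b, Matrix.trace]
    simp only [Matrix.diag_apply, LinearMap.toMatrix_apply, hQ]
    rw [Finset.card_filter]
    push_cast
    refine Finset.sum_congr rfl fun i _ => ?_
    split_ifs
    · simp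
    · simp
  have h2 : ((Pool.Agent.Helper54.MT.nodd y : ℕ) : K) =
      ((Finset.univ.filter fun i => Odd (k i)).card : K) := by
    unfold Pool.Agent.Helper54.MT.nodd
    rw [← ht, h1]
  exact_mod_cast h2

open Classical in
/-- The weights: normalised slopes. -/
lemma exists_weight_operator [IsAlgClosed K] [CharZero K] {ω : LinearMap.BilinForm K V}
    {γ γ' : Module.End K V} (h' : γ' * γ = 1) {c : K}
    (hc : ∀ u w, ω (γ u) (γ w) = c * ω u w) {v : K → ℚ}
    (hv : ∀ x y, x ≠ 0 → y ≠ 0 → v (x * y) = v x + v y)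
    {L : Submodule K (Module.End K V)} (hL : ∀ x ∈ L, γ * x * γ' ∈ L) {d : ℚ} (hd : d ≠ 0)
    (hint : ∀ α ∈ γ.charpoly.roots, ∃ k : ℤ, v α = v c / 2 + k * d) :
    ∃ y : Module.End K V, IsSk ω y ∧ (∀ x ∈ L, y * x - x * y ∈ L) ∧
      (⨆ n : ℤ, y.eigenspace (n : K) = ⊤) ∧
      Pool.Agent.Helper54.MT.nodd y = (γ.charpoly.roots.filter fun α =>
        ∃ k : ℤ, Odd k ∧ v α = v c / 2 + k * d).card := by
  classical
  obtain ⟨h, hsk, hnorm, hrsd, hdim⟩ := exists_slope h' hc hv hL
  obtain ⟨b, hb⟩ := hrsd.basis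
  obtain ⟨f, hf⟩ := hb h rfl
  have hms : Finset.univ.val.map f = γ.charpoly.roots.map fun α => v α - v c / 2 := by
    apply Multiset.ext.mpr
    intro a
    have h1 := hdim a
    rw [finrank_eigenspace_diag b hf a] at h1
    rw [Multiset.count_map, Multiset.count_map]
    have e1 : (Multiset.filter (fun i => a = f i) Finset.univ.val).card =
        (Finset.univ.filter fun i => f i = a).card := by
      change (Finset.univ.filter fun i => a = f i).card = _
      congr 1
      ext i
      simp [eq_comm]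
    rw [e1, h1]
    congr 1
    apply Multiset.filter_congr
    intro α _
    constructor
    · intro h; linarith
    · intro h; linarith
  have hk : ∀ i, ∃ k : ℤ, f i = k * d := by
    intro i
    have h1 : f i ∈ Finset.univ.val.map f := Multiset.mem_map_of_mem f (Finset.mem_univ_val i)
    rw [hms, Multiset.mem_map] at h1
    obtain ⟨α, hα, hαi⟩ := h1
    obtain ⟨k, hk⟩ := hint α hα
    exact ⟨k, by rw [← hαi, hk]; ring⟩
  choose k hk using hk
  have hdK : (d : K) ≠ 0 := by exact_mod_cast hd
  have hy : ∀ i, ((d : K)⁻¹ • h) (b i) = (k i : K) • b i := by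
    intro i
    rw [LinearMap.smul_apply, hf, smul_smul]
    congr 1
    rw [hk]
    push_cast
    rw [mul_comm (k i : K), inv_mul_cancel_left₀ hdK]
  refine ⟨(d : K)⁻¹ • h, ?_, ?_, ?_, ?_⟩
  · intro u w
    rw [LinearMap.smul_apply, LinearMap.smul_apply, map_smul, map_smul, LinearMap.smul_apply,
      hsk u w, smul_neg]
  · intro x hx
    have h1 := L.smul_mem (d : K)⁻¹ (hnorm x hx)
    rwa [smul_sub, ← smul_mul_assoc, ← mul_smul_comm] at h1
  · rw [eq_top_iff, ← b.span_eq, Submodule.span_le]
    rintro _ ⟨i, rfl⟩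
    apply Submodule.mem_iSup_of_mem (k i)
    rw [Module.End.mem_eigenspace_iff]
    exact hy i
  · rw [nodd_diag b hy]
    have e1 : (Finset.univ.filter fun i => Odd (k i)).card =
        ((Finset.univ.val.map f).filter fun a => ∃ k : ℤ, Odd k ∧ a = k * d).card := by
      rw [Multiset.filter_map, Multiset.card_map]
      change _ = (Finset.univ.filter _).card
      congr 1
      ext i
      simp only [Finset.mem_filter, Finset.mem_univ, true_and, Function.comp]
      constructor
      · intro ho; exact ⟨k i, ho, hk i⟩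
      · rintro ⟨k', ho, hk'⟩
        have : (k i : ℚ) = k' := mul_right_cancel₀ hd (by rw [← hk, hk'])
        have : k i = k' := by exact_mod_cast this
        rw [this]; exact ho
    rw [e1, hms, Multiset.filter_map, Multiset.card_map]
    congr 1
    apply Multiset.filter_congr
    intro α _
    constructor
    · rintro ⟨k', ho, hk'⟩
      have h1 : v α - v c / 2 = k' * d := hk'
      exact ⟨k', ho, by linarith⟩
    · rintro ⟨k', ho, hk'⟩
      refine ⟨k', ho, ?_⟩
      change v α - v c / 2 = k' * d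
      linarith

end one

section family
variable {K : Type*} [Field K] {ι : Type*} [Fintype ι] [DecidableEq ι] {W : ι → Type*}
  [∀ j, AddCommGroup (W j)] [∀ j, Module K (W j)] [∀ j, FiniteDimensional K (W j)]
  {σ : Type*} [Fintype σ]
  {ω : ∀ j, LinearMap.BilinForm K (W j)} {b : Basis σ K (∀ j, Module.End K (W j))}
  {G : Set (∀ j, Module.End K (W j))}

open Classical in
/-- The projection of the Lie algebra to a factor which satisfies the parity condition. -/
theorem GrpBase.proj_of_slopes [IsAlgClosed K] [CharZero K] (D : GrpBase ω b G) (j : ι)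
    {γ : ∀ j, Module.End K (W j)} (hγ : γ ∈ G) {c : K}
    (hc : ∀ u w, ω j (γ j u) (γ j w) = c * ω j u w) {v : K → ℚ}
    (hv : ∀ x y, x ≠ 0 → y ≠ 0 → v (x * y) = v x + v y) {d : ℚ} (hd : d ≠ 0)
    (hint : ∀ α ∈ (γ j).charpoly.roots, ∃ k : ℤ, v α = v c / 2 + k * d)
    (h4 : ((γ j).charpoly.roots.filter fun α =>
        ∃ k : ℤ, Odd k ∧ v α = v c / 2 + k * d).card % 4 = 2)
    (hne : 2 * ((γ j).charpoly.roots.filter fun α =>
        ∃ k : ℤ, Odd k ∧ v α = v c / 2 + k * d).card ≠ finrank K (W j))
    {z : Module.End K (W j)} (hz : IsSk (ω j) z) : ∃ x ∈ lieGen K (Inv ω G), x j = z := by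
  have hctx := D.ctx j
  set Lj := lieGen K ((Pi.evalAlgHom K (fun j => Module.End K (W j)) j) '' (Inv ω G)) with hLj
  have hmap : ∀ x, x ∈ Lj ↔ ∃ y ∈ lieGen K (Inv ω G), y j = x := by
    intro x
    rw [hLj, ← lieGen_map]
    rfl
  obtain ⟨h, hh, hgh, hhg⟩ := D.inv _ hγ
  obtain ⟨y, hysk, hynorm, hydiag, hyodd⟩ := exists_weight_operator (γ' := h j) (congrFun hhg j)
    hc hv (L := Lj) (by
      intro x hx
      obtain ⟨y, hy, rfl⟩ := (hmap x).mp hx
      rw [hmap]
      exact ⟨γ * y * h, D.lie_conj hγ hh hgh hhg hy, rfl⟩) hd hint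
  have hyL : y ∈ Lj := hctx.irr.mem_of_normalize hctx.nd hysk hynorm
  let L' : LieSubalgebra K (Module.End K (W j)) :=
    { Lj with lie_mem' := fun {x y} hx hy => hctx.irr.br x hx y hy }
  have h1 : z ∈ L' := MTP.MF.eq_sp_of_mod_four (L := L') hctx (D.alt j) hyL hydiag
    (by rw [hyodd]; exact h4) (by rw [hyodd]; exact hne) hz
  exact (hmap z).mp h1

end family

variable {K : Type*} [Field K] {m : Type*} [Fintype m] [DecidableEq m]
  {ι : Type*} [Fintype ι] [DecidableEq ι] {W : ι → Submodule K (m → K)}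
  {J : Matrix m m K} {G : Subgroup (Matrix.GeneralLinearGroup m K)}

lemma sub_pow_mat (h : DirectSum.IsInternal W) (a : ∀ j, Module.End K (W j)) (j : ι) (α : K)
    (k : ℕ) (x : W j) : ((Matrix.toLin' (mat h a) - α • 1) ^ k) (x : m → K) =
      (((a j - α • 1) ^ k) x : W j) := by
  induction k generalizing x with
  | zero => simp
  | succ k ih =>
    rw [pow_succ, pow_succ, Module.End.mul_apply, Module.End.mul_apply, ← ih]
    congr 1
    rw [LinearMap.sub_apply, Matrix.toLin'_apply, mat_mulVec]
    rfl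

lemma eigCount_mat [IsAlgClosed K] (h : DirectSum.IsInternal W) (a : ∀ j, Module.End K (W j))
    (j : ι) (S : Set K) [DecidablePred (· ∈ S)] : eigCount (mat h a) (W j) S =
      ((a j).charpoly.roots.filter (· ∈ S)).card := by
  classical
  have e1 : (⨆ α ∈ S, W j ⊓ Module.End.maxGenEigenspace (Matrix.toLin' (mat h a)) α : Submodule K (m → K)) =
      (⨆ α ∈ S, (a j).maxGenEigenspace α).map (W j).subtype := by
    rw [Submodule.map_iSup]
    refine iSup_congr fun α => ?_
    rw [Submodule.map_iSup]
    refine iSup_congr fun _ => ?_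
    ext x
    constructor
    · rintro ⟨hx, hx'⟩
      refine ⟨⟨x, hx⟩, ?_, rfl⟩
      rw [SetLike.mem_coe, Module.End.mem_maxGenEigenspace] at hx' ⊢
      obtain ⟨k, hk⟩ := hx'
      refine ⟨k, ?_⟩
      apply Subtype.ext
      rw [← sub_pow_mat h a j α k ⟨x, hx⟩]
      exact hk
    · rintro ⟨x, hx, rfl⟩
      refine ⟨x.2, ?_⟩
      rw [SetLike.mem_coe, Module.End.mem_maxGenEigenspace] at hx ⊢
      obtain ⟨k, hk⟩ := hx
      refine ⟨k, ?_⟩
      have := sub_pow_mat h a j α k x
      rw [hk] at this
      exact this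
  obtain ⟨b, lam, hb, hrep, hroots⟩ := exists_genbasis (a j)
  have e2 : (⨆ α ∈ S, (a j).maxGenEigenspace α) =
      Submodule.span K (Set.range fun i : {i // lam i ∈ S} => b i) := by
    apply le_antisymm
    · refine iSup_le fun α => iSup_le fun hα => ?_
      intro v hv
      rw [← b.sum_repr v]
      apply Submodule.sum_mem
      intro i _
      by_cases hi : b.repr v i = 0
      · rw [hi, zero_smul]; exact Submodule.zero_mem _
      · apply Submodule.smul_mem
        apply Submodule.subset_span
        have h1 := hrep α v hv i hi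
        exact ⟨⟨i, h1 ▸ hα⟩, rfl⟩
    · rw [Submodule.span_le]
      rintro _ ⟨⟨i, hi⟩, rfl⟩
      exact Submodule.mem_iSup_of_mem (lam i) (Submodule.mem_iSup_of_mem hi (hb i))
  rw [eigCount, e1, Submodule.finrank_map_subtype_eq, e2,
    finrank_span_eq_card (b := fun i : {i // lam i ∈ S} => b i)
      (b.linearIndependent.comp _ Subtype.val_injective), Fintype.card_subtype, hroots,
    Multiset.filter_map, Multiset.card_map]
  rfl

/-- **The mod four theorem for products of irreducible representations**, in terms of slopes. -/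
theorem isFull_of_slopes [IsAlgClosed K] [CharZero K] (hG : IsMTPair J G) (hW : IsSplit J G W)
    (hn : ∀ j, ∃ γ ∈ G, ∃ (c : K) (v : K → ℚ) (d : ℚ),
      (γ : Matrix m m K).transpose * J * (γ : Matrix m m K) = c • J ∧
      (∀ x y, x ≠ 0 → y ≠ 0 → v (x * y) = v x + v y) ∧ d ≠ 0 ∧
      (∀ α, ∀ u ∈ W j, u ≠ 0 → (γ : Matrix m m K).mulVec u = α • u →
        ∃ k : ℤ, v α = v c / 2 + k * d) ∧
      eigCount γ (W j) {α | ∃ k : ℤ, Odd k ∧ v α = v c / 2 + k * d} % 4 = 2 ∧
      2 * eigCount γ (W j) {α | ∃ k : ℤ, Odd k ∧ v α = v c / 2 + k * d} ≠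
        finrank K (W j)) :
    IsFull J G W := by
  classical
  have h := hW.internal
  have hnt : ∀ j, W j ≠ ⊥ := by
    intro j hj
    obtain ⟨γ, hγ, c, v, d, -, -, -, -, h4, -⟩ := hn j
    have : eigCount (γ : Matrix m m K) (W j) {α | ∃ k : ℤ, Odd k ∧ v α = v c / 2 + k * d} = 0 := by
      unfold eigCount
      rw [hj]
      simp
    rw [this] at h4
    omega
  have hnt' : ∀ j, Nontrivial (W j) := fun j => (Submodule.nontrivial_iff_ne_bot).mpr (hnt j)
  refine isFull_of_proj hG hW hnt ?_ (fun L h1 h2 h3 h4 =>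
    goursat hnt' (form J W) (form_nd hG.skew hG.det hW.internal hW.orth)
      (form_alt hG.skew) L h1 h2 h3 h4)
  intro j z hz
  obtain ⟨n, ⟨b⟩⟩ := exists_basis (W := W)
  have D := grpBase b hG hW hnt
  obtain ⟨γ, hγ, c, v, d, hc, hv, hd, hint, h4, hne⟩ := hn j
  obtain ⟨a, ha⟩ := exists_mat h (hW.stable γ hγ)
  have hcnt : eigCount (mat h a) (W j) {α | ∃ k : ℤ, Odd k ∧ v α = v c / 2 + k * d} =
      ((a j).charpoly.roots.filter fun α => ∃ k : ℤ, Odd k ∧ v α = v c / 2 + k * d).card := by
    rw [eigCount_mat h a j]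
    exact congrArg Multiset.card (Multiset.filter_congr fun _ _ => Iff.rfl)
  rw [ha, hcnt] at h4 hne
  refine D.proj_of_slopes j (γ := a) ⟨γ, hγ, ha⟩ (c := c) (v := v) (d := d)
    (fun u w => sim_form h ha hc j u w) hv hd ?_ h4 hne hz
  intro α hα
  have h1 : (a j).HasEigenvalue α := by
    rw [Module.End.hasEigenvalue_iff_isRoot_charpoly]
    exact (Polynomial.mem_roots'.mp hα).2
  obtain ⟨u, hu⟩ := h1.exists_hasEigenvector
  apply hint α u u.2 (fun h0 => hu.2 (Subtype.ext h0))
  rw [ha, mat_mulVec, hu.apply_eq_smul]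
  rfl

end MTP
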